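import Mathlib

/-! Sums over compositions: `∑ ∏ g_j^(-b_j)` over `g_1 + ... + g_p = n`. -/

namespace Pool.Agent.H16.Q1

open Finset

lemma rpow_tele {b : ℝ} (hb0 : 0 ≤ b) (hb1 : b < 1) {g : ℕ} (hg : 1 ≤ g) :
    (1 - b) * (g : ℝ) ^ (-b) ≤ (g : ℝ) ^ (1 - b) - ((g - 1 : ℕ) : ℝ) ^ (1 - b) := by
  have hg0 : (0 : ℝ) < g := by exact_mod_cast hg
  have h1 : ((g - 1 : ℕ) : ℝ) = g * (1 + (-(1 / g : ℝ))) := by
    rw [Nat.cast_sub hg]; field_simp; push_cast; ring
  have h2 : (1 + (-(1 / g : ℝ))) ^ (1 - b) ≤ 1 + (1 - b) * (-(1 / g : ℝ)) := by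
    refine _root_.rpow_one_add_le_one_add_mul_self ?_ (by linarith) (by linarith)
    rw [neg_le_neg_iff, div_le_one hg0]
    exact_mod_cast hg
  have h3 : (0 : ℝ) ≤ 1 + (-(1 / g : ℝ)) := by
    have : (1 / g : ℝ) ≤ 1 := by rw [div_le_one hg0]; exact_mod_cast hg
    linarith
  rw [h1, Real.mul_rpow hg0.le h3]
  have h4 : (g : ℝ) ^ (1 - b) = g * (g : ℝ) ^ (-b) := by
    rw [sub_eq_add_neg, Real.rpow_add hg0, Real.rpow_one]
  have h5 : (g : ℝ) ^ (1 - b) * (1 + (-(1 / g : ℝ))) ^ (1 - b)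
      ≤ (g : ℝ) ^ (1 - b) * (1 + (1 - b) * (-(1 / g : ℝ))) :=
    mul_le_mul_of_nonneg_left h2 (Real.rpow_nonneg hg0.le _)
  have h6 : (g : ℝ) ^ (1 - b) * (1 + (1 - b) * (-(1 / g : ℝ)))
      = (g : ℝ) ^ (1 - b) - (1 - b) * (g : ℝ) ^ (-b) := by
    rw [h4]; field_simp; ring
  linarith

lemma sum_head {b : ℝ} (hb0 : 0 ≤ b) (hb1 : b < 1) (n : ℕ) :
    ∑ g ∈ Icc 1 n, (g : ℝ) ^ (-b) ≤ (n : ℝ) ^ (1 - b) / (1 - b) := by
  rw [le_div_iff₀ (by linarith)]
  induction n with
  | zero => simp; positivity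
  | succ k ih =>
    rw [Finset.sum_Icc_succ_top (by omega), add_mul]
    have h := rpow_tele hb0 hb1 (g := k + 1) (by omega)
    simp only [Nat.add_sub_cancel] at h
    nlinarith

lemma sum_exp (T : ℝ) (hT : 0 < T) (n : ℕ) :
    ∑ g ∈ Icc 1 n, Real.exp (-(g / T)) ≤ T := by
  set q := Real.exp (-(1 / T)) with hq
  have hq0 : 0 < q := Real.exp_pos _
  have h1 : ∀ g : ℕ, Real.exp (-(g / T)) = q ^ g := by
    intro g
    rw [hq, ← Real.exp_nat_mul]
    congr 1; ring
  simp_rw [h1]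
  have h2 : ∀ n : ℕ, (∑ g ∈ Icc 1 n, q ^ g) * (1 - q) = q - q ^ (n + 1) := by
    intro n
    induction n with
    | zero => simp
    | succ k ih =>
      rw [Finset.sum_Icc_succ_top (by omega), add_mul, ih]; ring
  have h3 : q < 1 := by
    rw [hq, Real.exp_lt_one_iff]
    have : 0 < 1 / T := by positivity
    linarith
  have h4 : q ≤ T * (1 - q) := by
    have h5 : 1 / T + 1 ≤ Real.exp (1 / T) := Real.add_one_le_exp _
    have h6 : q * Real.exp (1 / T) = 1 := by
      rw [hq, ← Real.exp_add]; simp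
    have h7 : q * (1 / T + 1) ≤ 1 := by
      calc q * (1 / T + 1) ≤ q * Real.exp (1 / T) := mul_le_mul_of_nonneg_left h5 hq0.le
        _ = 1 := h6
    have h8 : q * (1 / T + 1) * T ≤ 1 * T := mul_le_mul_of_nonneg_right h7 hT.le
    have h9 : q * (1 / T + 1) * T = q + q * T := by field_simp
    linarith
  have h5 := h2 n
  have h6 : (∑ g ∈ Icc 1 n, q ^ g) * (1 - q) ≤ T * (1 - q) := by
    have : 0 < q ^ (n + 1) := by positivity
    linarith
  exact le_of_mul_le_mul_right h6 (by linarith)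

/-- the constant of one gap -/
noncomputable def cg (β : ℝ) : ℝ := 1 + 2 / (1 - β)

lemma cg_ge {β : ℝ} (h : β < 1) : 1 ≤ cg β := by
  have : 0 < 2 / (1 - β) := div_pos (by norm_num) (by linarith)
  unfold cg; linarith

lemma one_gap {b β T : ℝ} (hb0 : 0 ≤ b) (hbβ : b ≤ β) (hβ : β < 1) (hT : 1 ≤ T) (n : ℕ) :
    ∑ g ∈ Icc 1 n, (g : ℝ) ^ (-b) * Real.exp (-(g / T)) ≤ cg β * T ^ (1 - b) := by
  have hT0 : 0 < T := by linarith
  set n0 := ⌈T⌉₊ with hn0
  have hb1 : b < 1 := by linarith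
  have h1 : ∀ g ∈ Icc 1 n, (g : ℝ) ^ (-b) * Real.exp (-(g / T)) ≤
      (if g ≤ n0 then (g : ℝ) ^ (-b) else 0) + T ^ (-b) * Real.exp (-(g / T)) := by
    intro g hg
    have hg1 : 1 ≤ g := (mem_Icc.1 hg).1
    have hg0 : (0 : ℝ) < g := by exact_mod_cast hg1
    have he : Real.exp (-(g / T)) ≤ 1 := by
      rw [Real.exp_le_one_iff]
      have : 0 < (g : ℝ) / T := by positivity
      linarith
    have he0 : 0 < Real.exp (-(g / T)) := Real.exp_pos _
    have hp : 0 < (g : ℝ) ^ (-b) := Real.rpow_pos_of_pos hg0 _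
    have hTp : 0 < T ^ (-b) := Real.rpow_pos_of_pos hT0 _
    split_ifs with h
    · nlinarith [mul_pos hTp he0]
    · rw [zero_add]
      refine mul_le_mul_of_nonneg_right ?_ he0.le
      refine Real.rpow_le_rpow_of_nonpos hT0 ?_ (by linarith)
      rw [not_le] at h
      exact (Nat.ceil_le.1 h.le)
  refine (Finset.sum_le_sum h1).trans ?_
  rw [Finset.sum_add_distrib, ← Finset.mul_sum]
  have h2 : ∑ g ∈ Icc 1 n, (if g ≤ n0 then (g : ℝ) ^ (-b) else 0) ≤
      2 / (1 - β) * T ^ (1 - b) := by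
    rw [← Finset.sum_filter]
    calc ∑ g ∈ (Icc 1 n).filter (· ≤ n0), (g : ℝ) ^ (-b)
        ≤ ∑ g ∈ Icc 1 n0, (g : ℝ) ^ (-b) := by
          refine Finset.sum_le_sum_of_subset_of_nonneg ?_ fun g _ _ =>
            Real.rpow_nonneg (Nat.cast_nonneg g) _
          intro g hg
          have := Finset.mem_filter.1 hg
          exact mem_Icc.2 ⟨(mem_Icc.1 this.1).1, this.2⟩
      _ ≤ (n0 : ℝ) ^ (1 - b) / (1 - b) := sum_head hb0 hb1 n0
      _ ≤ (2 * T ^ (1 - b)) / (1 - β) := by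
          have h3 : (n0 : ℝ) ≤ 2 * T := by
            have := (Nat.ceil_lt_add_one hT0.le).le
            rw [← hn0] at this
            linarith
          have h4 : (n0 : ℝ) ^ (1 - b) ≤ 2 * T ^ (1 - b) := by
            calc (n0 : ℝ) ^ (1 - b) ≤ (2 * T) ^ (1 - b) :=
                  Real.rpow_le_rpow (Nat.cast_nonneg _) h3 (by linarith)
              _ = 2 ^ (1 - b) * T ^ (1 - b) := Real.mul_rpow (by norm_num) hT0.le
              _ ≤ 2 * T ^ (1 - b) := by
                  refine mul_le_mul_of_nonneg_right ?_ (Real.rpow_nonneg hT0.le _)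
                  calc (2 : ℝ) ^ (1 - b) ≤ 2 ^ (1 : ℝ) :=
                        Real.rpow_le_rpow_of_exponent_le (by norm_num) (by linarith)
                    _ = 2 := Real.rpow_one 2
          exact div_le_div₀ (mul_nonneg (by norm_num) (Real.rpow_nonneg hT0.le _)) h4
            (by linarith) (by linarith)
      _ = 2 / (1 - β) * T ^ (1 - b) := by ring
  have h3 : T ^ (-b) * ∑ g ∈ Icc 1 n, Real.exp (-(g / T)) ≤ T ^ (1 - b) := by
    calc T ^ (-b) * ∑ g ∈ Icc 1 n, Real.exp (-(g / T)) ≤ T ^ (-b) * T :=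
          mul_le_mul_of_nonneg_left (sum_exp T hT0 n) (Real.rpow_nonneg hT0.le _)
      _ = T ^ (1 - b) := by
          rw [← Real.rpow_add_one hT0.ne']; congr 1; ring
  calc _ ≤ 2 / (1 - β) * T ^ (1 - b) + T ^ (1 - b) := add_le_add h2 h3
    _ = cg β * T ^ (1 - b) := by unfold cg; ring

/-- compositions of `n` in `p` positive parts -/
def comps (p n : ℕ) : Finset (Fin p → ℕ) :=
  (Fintype.piFinset fun _ => Icc 1 n).filter fun g => ∑ j, g j = n

lemma mem_comps {p n : ℕ} {g : Fin p → ℕ} :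
    g ∈ comps p n ↔ (∀ j, 1 ≤ g j) ∧ ∑ j, g j = n := by
  unfold comps
  rw [Finset.mem_filter, Fintype.mem_piFinset]
  constructor
  · rintro ⟨h1, h2⟩
    exact ⟨fun j => (mem_Icc.1 (h1 j)).1, h2⟩
  · rintro ⟨h1, h2⟩
    refine ⟨fun j => mem_Icc.2 ⟨h1 j, ?_⟩, h2⟩
    rw [← h2]
    exact Finset.single_le_sum (f := g) (fun i _ => Nat.zero_le _) (mem_univ j)

theorem dirichlet {β : ℝ} (hβ : β < 1) {p n : ℕ} (hp : 1 ≤ p) (hpn : p ≤ n)
    (b : Fin p → ℝ) (hb0 : ∀ j, 0 ≤ b j) (hb1 : ∀ j, b j ≤ β) :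
    ∑ g ∈ comps p n, ∏ j, (g j : ℝ) ^ (-(b j)) ≤
      p * Real.exp p * cg β ^ p * ((n : ℝ) / p) ^ ((p : ℝ) - 1 - ∑ j, b j) := by
  have hp0 : (0 : ℝ) < p := by exact_mod_cast hp
  set T : ℝ := (n : ℝ) / p with hT
  have hT1 : 1 ≤ T := by
    rw [hT, le_div_iff₀ hp0]; rw [one_mul]; exact_mod_cast hpn
  have hT0 : 0 < T := by linarith
  have hc1 := cg_ge hβ
  -- one of the parts is at least `n / p`
  have hbig : ∀ g ∈ comps p n, ∃ j0, T ≤ g j0 := by
    intro g hg
    by_contra hcon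
    push Not at hcon
    have h1 := (mem_comps.1 hg).2
    have h2 : ((∑ j, g j : ℕ) : ℝ) < ∑ _j : Fin p, T := by
      push_cast
      have : Nonempty (Fin p) := ⟨⟨0, hp⟩⟩
      exact Finset.sum_lt_sum_of_nonempty univ_nonempty fun j _ => hcon j
    rw [h1, Finset.sum_const, Finset.card_univ, Fintype.card_fin, nsmul_eq_mul, hT] at h2
    have : (p : ℝ) * (n / p) = n := by field_simp
    linarith
  have hstep : ∀ j0 : Fin p, ∑ g ∈ (comps p n).filter (fun g => T ≤ g j0),
      ∏ j, (g j : ℝ) ^ (-(b j)) ≤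
      Real.exp p * cg β ^ p * T ^ ((p : ℝ) - 1 - ∑ j, b j) := by
    intro j0
    set f : Fin p → ℕ → ℝ := fun j x =>
      if j = j0 then T ^ (-(b j0)) else (x : ℝ) ^ (-(b j)) * Real.exp (-(x / T)) with hf
    set t : Fin p → Finset ℕ := fun j => if j = j0 then {1} else Icc 1 n with ht
    have hfnn : ∀ j x, 0 ≤ f j x := by
      intro j x
      rw [hf]; simp only
      split_ifs
      · exact Real.rpow_nonneg hT0.le _
      · exact mul_nonneg (Real.rpow_nonneg (Nat.cast_nonneg _) _) (Real.exp_pos _).le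
    have h1 : ∀ g ∈ (comps p n).filter (fun g => T ≤ g j0),
        ∏ j, (g j : ℝ) ^ (-(b j)) ≤ Real.exp p * ∏ j, f j (Function.update g j0 1 j) := by
      intro g hg
      obtain ⟨hg1, hg2⟩ := Finset.mem_filter.1 hg
      obtain ⟨hg3, hg4⟩ := mem_comps.1 hg1
      have e1 : ∏ j, (g j : ℝ) ^ (-(b j)) = (g j0 : ℝ) ^ (-(b j0)) *
          ∏ j ∈ univ.erase j0, (g j : ℝ) ^ (-(b j)) := (Finset.mul_prod_erase _ _ (mem_univ j0)).symm
      have e2 : ∏ j, f j (Function.update g j0 1 j) = T ^ (-(b j0)) *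
          ((∏ j ∈ univ.erase j0, (g j : ℝ) ^ (-(b j))) *
            Real.exp (-(∑ j ∈ univ.erase j0, (g j : ℝ) / T))) := by
        rw [← Finset.mul_prod_erase _ _ (mem_univ j0), ← Finset.sum_neg_distrib, Real.exp_sum,
          ← Finset.prod_mul_distrib]
        congr 1
        · rw [hf]; simp
        · refine Finset.prod_congr rfl fun j hj => ?_
          have hj' : j ≠ j0 := (Finset.mem_erase.1 hj).1
          rw [hf]; simp only [hj', if_false]
          rw [Function.update_of_ne hj']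
      rw [e1, e2]
      have e3 : ∑ j ∈ univ.erase j0, (g j : ℝ) / T ≤ p := by
        have : ∑ j ∈ univ.erase j0, (g j : ℝ) / T ≤ ∑ j, (g j : ℝ) / T :=
          Finset.sum_le_sum_of_subset_of_nonneg (Finset.erase_subset _ _) fun j _ _ =>
            div_nonneg (Nat.cast_nonneg _) hT0.le
        refine this.trans ?_
        rw [← Finset.sum_div, ← Nat.cast_sum, hg4, hT, div_div_eq_mul_div, mul_comm]
        by_cases hn : (n : ℝ) = 0
        · rw [hn]; simp
        · rw [mul_div_assoc, div_self hn, mul_one]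
      have e4 : (1 : ℝ) ≤ Real.exp p * Real.exp (-(∑ j ∈ univ.erase j0, (g j : ℝ) / T)) := by
        rw [← Real.exp_add]
        exact Real.one_le_exp (by linarith)
      have e5 : (g j0 : ℝ) ^ (-(b j0)) ≤ T ^ (-(b j0)) :=
        Real.rpow_le_rpow_of_nonpos hT0 hg2 (by linarith [hb0 j0])
      have e6 : 0 ≤ ∏ j ∈ univ.erase j0, (g j : ℝ) ^ (-(b j)) :=
        Finset.prod_nonneg fun j _ => Real.rpow_nonneg (Nat.cast_nonneg _) _
      calc (g j0 : ℝ) ^ (-(b j0)) * ∏ j ∈ univ.erase j0, (g j : ℝ) ^ (-(b j))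
          ≤ T ^ (-(b j0)) * ∏ j ∈ univ.erase j0, (g j : ℝ) ^ (-(b j)) :=
            mul_le_mul_of_nonneg_right e5 e6
        _ = (T ^ (-(b j0)) * ∏ j ∈ univ.erase j0, (g j : ℝ) ^ (-(b j))) * 1 := by ring
        _ ≤ (T ^ (-(b j0)) * ∏ j ∈ univ.erase j0, (g j : ℝ) ^ (-(b j))) *
            (Real.exp p * Real.exp (-(∑ j ∈ univ.erase j0, (g j : ℝ) / T))) :=
            mul_le_mul_of_nonneg_left e4 (mul_nonneg (Real.rpow_nonneg hT0.le _) e6)
        _ = _ := by ring
    refine (Finset.sum_le_sum h1).trans ?_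
    rw [← Finset.mul_sum, mul_assoc]
    refine mul_le_mul_of_nonneg_left ?_ (Real.exp_pos _).le
    have hinj : Set.InjOn (fun g : Fin p → ℕ => Function.update g j0 1)
        ((comps p n).filter (fun g => T ≤ g j0)) := by
      intro g hg g' hg' heq
      simp only at heq
      have hg4 := (mem_comps.1 (Finset.mem_filter.1 hg).1).2
      have hg4' := (mem_comps.1 (Finset.mem_filter.1 hg').1).2
      have hoff : ∀ j, j ≠ j0 → g j = g' j := by
        intro j hj
        have := congrFun heq j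
        rwa [Function.update_of_ne hj, Function.update_of_ne hj] at this
      funext j
      by_cases hj : j = j0
      · subst hj
        have a1 := Finset.add_sum_erase univ g (mem_univ j)
        have a2 := Finset.add_sum_erase univ g' (mem_univ j)
        have a3 : ∑ i ∈ univ.erase j, g i = ∑ i ∈ univ.erase j, g' i :=
          Finset.sum_congr rfl fun i hi => hoff i (Finset.mem_erase.1 hi).1
        omega
      · exact hoff j hj
    have h2 : ∑ g ∈ (comps p n).filter (fun g => T ≤ g j0),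
        ∏ j, f j (Function.update g j0 1 j) ≤ ∑ g ∈ Fintype.piFinset t, ∏ j, f j (g j) := by
      rw [← Finset.sum_image (f := fun g : Fin p → ℕ => ∏ j, f j (g j))
        (g := fun g : Fin p → ℕ => Function.update g j0 1) hinj]
      refine Finset.sum_le_sum_of_subset_of_nonneg ?_ fun g _ _ =>
        Finset.prod_nonneg fun j _ => hfnn j _
      intro g' hg'
      obtain ⟨g, hg, rfl⟩ := Finset.mem_image.1 hg'
      rw [Fintype.mem_piFinset]
      intro j
      have hgc := (Finset.mem_filter.1 hg).1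
      have hpi := (Finset.mem_filter.1 hgc).1
      rw [Fintype.mem_piFinset] at hpi
      rw [ht]; simp only
      by_cases hj : j = j0
      · subst hj; simp
      · rw [if_neg hj, Function.update_of_ne hj]; exact hpi j
    refine h2.trans ?_
    rw [← Finset.prod_univ_sum]
    have h3 : ∀ j, ∑ x ∈ t j, f j x ≤ (if j = j0 then 1 else cg β * T) * T ^ (-(b j)) := by
      intro j
      rw [ht, hf]; simp only
      by_cases hj : j = j0
      · subst hj; simp
      · simp only [hj, if_false]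
        refine (one_gap (hb0 j) (hb1 j) hβ hT1 n).trans ?_
        rw [sub_eq_add_neg, Real.rpow_add hT0, Real.rpow_one, mul_assoc]
    refine (Finset.prod_le_prod (fun j _ => Finset.sum_nonneg fun x _ => hfnn j x)
      fun j _ => h3 j).trans ?_
    have h4 : ∏ j, (if j = j0 then 1 else cg β * T) = (cg β * T) ^ (p - 1) := by
      rw [← Finset.mul_prod_erase _ _ (mem_univ j0), if_pos rfl, one_mul]
      rw [Finset.prod_congr rfl (fun j hj => if_neg (Finset.mem_erase.1 hj).1), Finset.prod_const,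
        Finset.card_erase_of_mem (mem_univ _), Finset.card_univ, Fintype.card_fin]
    have h5 : ∏ j, T ^ (-(b j)) = T ^ (-∑ j, b j) := by
      rw [← Finset.sum_neg_distrib, Real.rpow_sum_of_pos hT0]
    rw [Finset.prod_mul_distrib, h4, h5, mul_pow, mul_assoc]
    have h6 : T ^ (p - 1) * T ^ (-∑ j, b j) = T ^ ((p : ℝ) - 1 - ∑ j, b j) := by
      rw [← Real.rpow_natCast, ← Real.rpow_add hT0, Nat.cast_sub hp]
      congr 1; push_cast; ring
    rw [h6]
    refine mul_le_mul_of_nonneg_right ?_ (Real.rpow_nonneg hT0.le _)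
    exact pow_le_pow_right₀ hc1 (Nat.sub_le _ _)
  have h1 : ∑ g ∈ comps p n, ∏ j, (g j : ℝ) ^ (-(b j)) ≤
      ∑ j0 : Fin p, ∑ g ∈ (comps p n).filter (fun g => T ≤ g j0), ∏ j, (g j : ℝ) ^ (-(b j)) := by
    simp_rw [Finset.sum_filter]
    rw [Finset.sum_comm]
    refine Finset.sum_le_sum fun g hg => ?_
    obtain ⟨j0, hj0⟩ := hbig g hg
    have hnn : ∀ j ∈ univ, 0 ≤ (if T ≤ g j then ∏ j, (g j : ℝ) ^ (-(b j)) else 0) := by
      intro j _
      split_ifs
      · exact Finset.prod_nonneg fun j _ => Real.rpow_nonneg (Nat.cast_nonneg _) _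
      · exact le_rfl
    have := Finset.single_le_sum hnn (mem_univ j0)
    rw [if_pos hj0] at this
    exact this
  refine h1.trans ?_
  refine (Finset.sum_le_sum fun j0 _ => hstep j0).trans ?_
  rw [Finset.sum_const, Finset.card_univ, Fintype.card_fin, nsmul_eq_mul]
  apply le_of_eq; ring

end Pool.Agent.H16.Q1
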