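import Pool.Agent.H16.Q1.GapSet

/-! Circle version and generating function of `gap_sum`. -/

namespace Pool.Agent.H16.Q1

open Finset Filter Topology

/-- **Circle with a mark at `0`**: sum over the `m`-point subsets `S` of `{1, ..., N - 1}`, of
weights `w S x ≤ A d^(-a)`, with `d` the cyclic distance (mod `N`) from `x` to some other point of
`S` or to the mark. -/
theorem gap_sum_cyc {a A : ℝ} (ha0 : 0 ≤ a) (ha : a < 1 / 2) (hA : 0 ≤ A) (m N : ℕ)
    (w : Finset ℕ → ℕ → ℝ)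
    (hw0 : ∀ S ∈ powersetCard m (Ioo 0 N), ∀ x ∈ S, 0 ≤ w S x)
    (hw : ∀ S ∈ powersetCard m (Ioo 0 N), ∀ x ∈ S,
      ∃ y ∈ insert 0 S, y ≠ x ∧
        w S x ≤ A * (min |(x : ℝ) - y| (N - |(x : ℝ) - y|)) ^ (-a)) :
    ∑ S ∈ powersetCard m (Ioo 0 N), ∏ x ∈ S, w S x ≤
      cS a * (A * cS a) ^ m * ((N : ℝ) ^ ((1 - a) * m) / (m.factorial : ℝ) ^ (1 - a)) := by
  refine gap_sum ha0 ha hA m N w hw0 fun S hS x hx => ?_
  obtain ⟨y, hy, hyx, h⟩ := hw S hS x hx
  obtain ⟨hSs, -⟩ := Finset.mem_powersetCard.1 hS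
  have hxI := Finset.mem_Ioo.1 (hSs hx)
  have hx0 : (0 : ℝ) < x := by exact_mod_cast hxI.1
  have hxN : (x : ℝ) < N := by exact_mod_cast hxI.2
  have hyN : (y : ℝ) < N := by
    rcases Finset.mem_insert.1 hy with h0 | h0
    · rw [h0]; push_cast; linarith
    · have := Finset.mem_Ioo.1 (hSs h0)
      exact_mod_cast this.2
  have hy0 : (0 : ℝ) ≤ y := Nat.cast_nonneg y
  rcases le_total |(x : ℝ) - y| (N - |(x : ℝ) - y|) with hc | hc
  · rw [min_eq_left hc] at h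
    refine ⟨y, ?_, hyx, h⟩
    unfold ext
    rcases Finset.mem_insert.1 hy with h0 | h0
    · rw [h0]; simp
    · simp [h0]
  · rw [min_eq_right hc] at h
    rcases lt_or_gt_of_ne hyx with hlt | hlt
    · -- `y < x`: use the end `N`
      have hlt' : (y : ℝ) < x := by exact_mod_cast hlt
      rw [abs_of_pos (by linarith)] at h
      refine ⟨N, by simp [ext], by omega, h.trans (mul_le_mul_of_nonneg_left ?_ hA)⟩
      refine Real.rpow_le_rpow_of_nonpos ?_ ?_ (by linarith)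
      · rw [abs_pos]; linarith
      · rw [abs_of_neg (by linarith)]; linarith
    · have hlt' : (x : ℝ) < y := by exact_mod_cast hlt
      rw [abs_of_neg (by linarith)] at h
      refine ⟨0, by simp [ext], by omega, h.trans (mul_le_mul_of_nonneg_left ?_ hA)⟩
      refine Real.rpow_le_rpow_of_nonpos ?_ ?_ (by linarith)
      · push_cast; rw [sub_zero, abs_pos]; linarith
      · push_cast; rw [sub_zero, abs_of_pos hx0]; linarith

/-- `C^m / (m!)^s` -/
noncomputable def wg (s C : ℝ) (m : ℕ) : ℝ := C ^ m / ((m.factorial : ℝ) ^ s)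

lemma wg_nonneg {s C : ℝ} (hC : 0 ≤ C) (m : ℕ) : 0 ≤ wg s C m :=
  div_nonneg (pow_nonneg hC m) (Real.rpow_nonneg (Nat.cast_nonneg _) _)

lemma summable_wg {s C : ℝ} (hs : 0 < s) (hC : 0 ≤ C) : Summable (wg s C) := by
  rcases hC.eq_or_lt with hC | hC
  · subst hC
    refine summable_of_ne_finset_zero (s := {0}) fun m hm => ?_
    unfold wg
    rw [zero_pow (by simpa using hm), zero_div]
  have hf : ∀ m : ℕ, 0 < ((m.factorial : ℝ) ^ s) := fun m =>
    Real.rpow_pos_of_pos (by exact_mod_cast m.factorial_pos) _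
  have hpos : ∀ m, 0 < wg s C m := fun m => div_pos (pow_pos hC m) (hf m)
  refine summable_of_ratio_test_tendsto_lt_one (l := 0) zero_lt_one
    (Eventually.of_forall fun m => (hpos m).ne') ?_
  have h1 : ∀ m : ℕ, ‖wg s C (m + 1)‖ / ‖wg s C m‖ = C / ((m + 1 : ℝ) ^ s) := by
    intro m
    rw [Real.norm_eq_abs, Real.norm_eq_abs, abs_of_pos (hpos _), abs_of_pos (hpos _)]
    unfold wg
    have h1 : (((m + 1).factorial : ℕ) : ℝ) ^ s
        = ((m + 1 : ℝ) ^ s) * ((m.factorial : ℝ) ^ s) := by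
      rw [Nat.factorial_succ]
      push_cast
      rw [Real.mul_rpow (by positivity) (by positivity)]
    rw [h1, pow_succ]
    have h2 := (hf m).ne'
    have h3 : ((m + 1 : ℝ) ^ s) ≠ 0 := (Real.rpow_pos_of_pos (by positivity) _).ne'
    have h4 : C ≠ 0 := hC.ne'
    field_simp
  simp_rw [h1]
  have h2 : Tendsto (fun m : ℕ => ((m + 1 : ℝ) ^ s)) atTop atTop := by
    refine (tendsto_rpow_atTop hs).comp ?_
    exact tendsto_atTop_add_const_right _ _ tendsto_natCast_atTop_atTop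
  exact h2.const_div_atTop C

/-- the constant of `gap_gen` -/
noncomputable def cG (a A K : ℝ) : ℝ := cS a * ∑' m, wg (1 - a) (A * cS a * K) m

/-- **generating function**: the sum over all subsets `S` of the product of the weights, times
`(K N^(-(1-a)))^|S|`, is bounded. -/
theorem gap_gen {a A K : ℝ} (ha0 : 0 ≤ a) (ha : a < 1 / 2) (hA : 0 ≤ A) (hK : 0 ≤ K) (N : ℕ)
    (hN : 1 ≤ N) (w : Finset ℕ → ℕ → ℝ)
    (hw0 : ∀ S ⊆ Ioo 0 N, ∀ x ∈ S, 0 ≤ w S x)
    (hw : ∀ S ⊆ Ioo 0 N, ∀ x ∈ S,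
      ∃ y ∈ insert 0 S, y ≠ x ∧
        w S x ≤ A * (min |(x : ℝ) - y| (N - |(x : ℝ) - y|)) ^ (-a)) :
    ∑ S ∈ (Ioo 0 N).powerset, (∏ x ∈ S, w S x) * (K * (N : ℝ) ^ (-(1 - a))) ^ S.card ≤
      cG a A K := by
  have hN0 : (0 : ℝ) < N := by exact_mod_cast hN
  rw [Finset.sum_powerset]
  have h1 : ∀ m ∈ range ((Ioo 0 N).card + 1),
      ∑ S ∈ powersetCard m (Ioo 0 N), (∏ x ∈ S, w S x) * (K * (N : ℝ) ^ (-(1 - a))) ^ S.card ≤
        cS a * wg (1 - a) (A * cS a * K) m := by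
    intro m _
    have h2 : ∑ S ∈ powersetCard m (Ioo 0 N),
        (∏ x ∈ S, w S x) * (K * (N : ℝ) ^ (-(1 - a))) ^ S.card =
        (∑ S ∈ powersetCard m (Ioo 0 N), ∏ x ∈ S, w S x) * (K * (N : ℝ) ^ (-(1 - a))) ^ m := by
      rw [Finset.sum_mul]
      refine Finset.sum_congr rfl fun S hS => ?_
      rw [(Finset.mem_powersetCard.1 hS).2]
    rw [h2]
    have h3 := gap_sum_cyc ha0 ha hA m N w
      (fun S hS => hw0 S (Finset.mem_powersetCard.1 hS).1)
      (fun S hS => hw S (Finset.mem_powersetCard.1 hS).1)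
    have h4 : (0 : ℝ) ≤ (K * (N : ℝ) ^ (-(1 - a))) ^ m :=
      pow_nonneg (mul_nonneg hK (Real.rpow_nonneg hN0.le _)) _
    refine (mul_le_mul_of_nonneg_right h3 h4).trans (le_of_eq ?_)
    have h5 : (N : ℝ) ^ ((1 - a) * m) * ((N : ℝ) ^ (-(1 - a))) ^ m = 1 := by
      rw [← Real.rpow_natCast, ← Real.rpow_mul hN0.le, ← Real.rpow_add hN0]
      have : (1 - a) * (m : ℝ) + -(1 - a) * (m : ℝ) = 0 := by ring
      rw [this, Real.rpow_zero]
    unfold wg
    rw [mul_pow K, mul_pow (A * cS a) K]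
    calc cS a * (A * cS a) ^ m * ((N : ℝ) ^ ((1 - a) * m) / (m.factorial : ℝ) ^ (1 - a)) *
          (K ^ m * ((N : ℝ) ^ (-(1 - a))) ^ m)
        = cS a * ((A * cS a) ^ m * K ^ m / (m.factorial : ℝ) ^ (1 - a)) *
          ((N : ℝ) ^ ((1 - a) * m) * ((N : ℝ) ^ (-(1 - a))) ^ m) := by ring
      _ = _ := by rw [h5, mul_one]
  refine (Finset.sum_le_sum h1).trans ?_
  rw [← Finset.mul_sum]
  unfold cG
  have hc := cS_ge ha
  refine mul_le_mul_of_nonneg_left ?_ (by linarith)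
  have hC : 0 ≤ A * cS a * K := by positivity
  exact (summable_wg (by linarith) hC).sum_le_tsum _ fun m _ => wg_nonneg hC m

end Pool.Agent.H16.Q1
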