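import Pool.Agent.H16.Q1.GapGen

/-! Gap sums on the circle with an arbitrary set of marks. -/

namespace Pool.Agent.H16.Q1

open Finset Filter Topology

/-- distance from `x` to the nearest other point of `P` -/
def nd (P : Finset ℕ) (x : ℕ) : ℕ :=
  if h : (P.erase x).Nonempty then (P.erase x).inf' h (fun y => Nat.dist x y) else 0

lemma nd_le {P : Finset ℕ} {x y : ℕ} (hy : y ∈ P) (hyx : y ≠ x) : nd P x ≤ Nat.dist x y := by
  have h : y ∈ P.erase x := Finset.mem_erase.2 ⟨hyx, hy⟩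
  unfold nd
  rw [dif_pos ⟨y, h⟩]
  exact Finset.inf'_le (fun y => Nat.dist x y) h

lemma exists_nd {P : Finset ℕ} {x y : ℕ} (hy : y ∈ P) (hyx : y ≠ x) :
    ∃ z ∈ P, z ≠ x ∧ nd P x = Nat.dist x z := by
  have h : (P.erase x).Nonempty := ⟨y, Finset.mem_erase.2 ⟨hyx, hy⟩⟩
  obtain ⟨z, hz, hz'⟩ := Finset.exists_mem_eq_inf' h (fun y => Nat.dist x y)
  refine ⟨z, (Finset.mem_erase.1 hz).2, (Finset.mem_erase.1 hz).1, ?_⟩
  unfold nd
  rw [dif_pos h]; exact hz'

lemma dist_pos' {x y : ℕ} (h : y ≠ x) : 1 ≤ Nat.dist x y := by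
  unfold Nat.dist; omega

lemma nd_pos {P : Finset ℕ} {x y : ℕ} (hy : y ∈ P) (hyx : y ≠ x) : 1 ≤ nd P x := by
  obtain ⟨z, -, hz, h⟩ := exists_nd hy hyx
  rw [h]; exact dist_pos' hz

/-- comparison of the distances -/
lemma nd_mono {P P' : Finset ℕ} {x : ℕ} (hne : ∃ y ∈ P', y ≠ x)
    (h : ∀ y ∈ P', y ≠ x → ∃ z ∈ P, z ≠ x ∧ Nat.dist x z ≤ Nat.dist x y) : nd P x ≤ nd P' x := by
  obtain ⟨y, hy, hyx⟩ := hne
  obtain ⟨z, hz, hzx, hz'⟩ := exists_nd hy hyx
  obtain ⟨u, hu, hux, hle⟩ := h z hz hzx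
  rw [hz']
  exact (nd_le hu hux).trans hle

/-- generating function of an interval `(l, n)` with marks `Q` -/
noncomputable def Wt (a κ : ℝ) (l n : ℕ) (Q : Finset ℕ) : ℝ :=
  ∑ S ∈ (Ioo l n \ Q).powerset,
    ∏ x ∈ S, (κ * (nd (insert l (insert n (S ∪ Q))) x : ℝ) ^ (-a))

lemma Wt_nonneg {a κ : ℝ} (hκ : 0 ≤ κ) (l n : ℕ) (Q : Finset ℕ) : 0 ≤ Wt a κ l n Q :=
  Finset.sum_nonneg fun _ _ => Finset.prod_nonneg fun _ _ =>
    mul_nonneg hκ (Real.rpow_nonneg (Nat.cast_nonneg _) _)

/-- cut at a mark -/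
lemma Wt_split {a κ : ℝ} (ha0 : 0 ≤ a) (hκ : 0 ≤ κ) {l n q : ℕ} {Q : Finset ℕ} (hq : q ∈ Q)
    (hlq : l < q) (hqn : q < n) : Wt a κ l n Q ≤ Wt a κ l q Q * Wt a κ q n Q := by
  unfold Wt
  rw [Finset.sum_mul_sum, ← Finset.sum_product']
  set F : Finset ℕ × Finset ℕ → ℝ := fun p =>
    (∏ x ∈ p.1, (κ * (nd (insert l (insert q (p.1 ∪ Q))) x : ℝ) ^ (-a))) *
    ∏ x ∈ p.2, (κ * (nd (insert q (insert n (p.2 ∪ Q))) x : ℝ) ^ (-a)) with hF
  set φ : Finset ℕ → Finset ℕ × Finset ℕ := fun S => (S.filter (· < q), S.filter (q < ·)) with hφ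
  have hmem : ∀ S ∈ (Ioo l n \ Q).powerset, φ S ∈ (Ioo l q \ Q).powerset ×ˢ
      (Ioo q n \ Q).powerset := by
    intro S hS
    rw [Finset.mem_powerset] at hS
    rw [hφ, Finset.mem_product, Finset.mem_powerset, Finset.mem_powerset]
    constructor
    · intro x hx
      obtain ⟨h1, h2⟩ := Finset.mem_filter.1 hx
      obtain ⟨h3, h4⟩ := Finset.mem_sdiff.1 (hS h1)
      exact Finset.mem_sdiff.2 ⟨Finset.mem_Ioo.2 ⟨(Finset.mem_Ioo.1 h3).1, h2⟩, h4⟩
    · intro x hx
      obtain ⟨h1, h2⟩ := Finset.mem_filter.1 hx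
      obtain ⟨h3, h4⟩ := Finset.mem_sdiff.1 (hS h1)
      exact Finset.mem_sdiff.2 ⟨Finset.mem_Ioo.2 ⟨h2, (Finset.mem_Ioo.1 h3).2⟩, h4⟩
  have hun : ∀ S ∈ (Ioo l n \ Q).powerset, S = (φ S).1 ∪ (φ S).2 := by
    intro S hS
    rw [Finset.mem_powerset] at hS
    ext x
    rw [hφ, Finset.mem_union, Finset.mem_filter, Finset.mem_filter]
    constructor
    · intro hx
      have hxq : x ≠ q := by
        rintro rfl
        exact (Finset.mem_sdiff.1 (hS hx)).2 hq
      rcases lt_or_gt_of_ne hxq with h | h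
      · exact Or.inl ⟨hx, h⟩
      · exact Or.inr ⟨hx, h⟩
    · rintro (h | h)
      · exact h.1
      · exact h.1
  have hinj : Set.InjOn φ ((Ioo l n \ Q).powerset : Finset (Finset ℕ)) := by
    intro S hS S' hS' h
    rw [hun S hS, hun S' hS', h]
  have hle : ∀ S ∈ (Ioo l n \ Q).powerset,
      ∏ x ∈ S, (κ * (nd (insert l (insert n (S ∪ Q))) x : ℝ) ^ (-a)) ≤ F (φ S) := by
    intro S hS
    have hS2 := Finset.mem_powerset.1 hS
    have hdisj : Disjoint (φ S).1 (φ S).2 := by
      rw [hφ, Finset.disjoint_left]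
      intro x hx hx'
      have := (Finset.mem_filter.1 hx).2
      have := (Finset.mem_filter.1 hx').2
      omega
    have e : ∏ x ∈ S, (κ * (nd (insert l (insert n (S ∪ Q))) x : ℝ) ^ (-a)) =
        (∏ x ∈ (φ S).1, (κ * (nd (insert l (insert n (S ∪ Q))) x : ℝ) ^ (-a))) *
        ∏ x ∈ (φ S).2, (κ * (nd (insert l (insert n (S ∪ Q))) x : ℝ) ^ (-a)) := by
      rw [← Finset.prod_union hdisj, ← hun S hS]
    rw [e, hF]
    have hterm : ∀ P x, (0 : ℝ) ≤ κ * (nd P x : ℝ) ^ (-a) := fun P x =>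
      mul_nonneg hκ (Real.rpow_nonneg (Nat.cast_nonneg _) _)
    refine mul_le_mul ?_ ?_ (Finset.prod_nonneg fun _ _ => hterm _ _)
      (Finset.prod_nonneg fun _ _ => hterm _ _)
    · refine Finset.prod_le_prod (fun _ _ => hterm _ _) fun x hx => ?_
      obtain ⟨hxS, hxq⟩ := Finset.mem_filter.1 hx
      have hxI := Finset.mem_Ioo.1 (Finset.mem_sdiff.1 (hS2 hxS)).1
      refine mul_le_mul_of_nonneg_left ?_ hκ
      have hq1 : 1 ≤ nd (insert l (insert q ((φ S).1 ∪ Q))) x :=
        nd_pos (y := q) (by simp) (by omega)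
      refine Real.rpow_le_rpow_of_nonpos (by exact_mod_cast hq1) ?_ (by linarith)
      have : nd (insert l (insert q ((φ S).1 ∪ Q))) x ≤ nd (insert l (insert n (S ∪ Q))) x := by
        refine nd_mono ⟨n, by simp, by omega⟩ fun y hy hyx => ?_
        rw [Finset.mem_insert, Finset.mem_insert, Finset.mem_union] at hy
        by_cases hyq : y < q
        · refine ⟨y, ?_, hyx, le_rfl⟩
          rw [Finset.mem_insert, Finset.mem_insert, Finset.mem_union]
          rcases hy with h | h | h | h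
          · exact Or.inl h
          · omega
          · exact Or.inr (Or.inr (Or.inl (Finset.mem_filter.2 ⟨h, hyq⟩)))
          · exact Or.inr (Or.inr (Or.inr h))
        · refine ⟨q, by simp, by omega, ?_⟩
          unfold Nat.dist; omega
      exact_mod_cast this
    · refine Finset.prod_le_prod (fun _ _ => hterm _ _) fun x hx => ?_
      obtain ⟨hxS, hxq⟩ := Finset.mem_filter.1 hx
      have hxI := Finset.mem_Ioo.1 (Finset.mem_sdiff.1 (hS2 hxS)).1
      refine mul_le_mul_of_nonneg_left ?_ hκ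
      have hq1 : 1 ≤ nd (insert q (insert n ((φ S).2 ∪ Q))) x :=
        nd_pos (y := q) (by simp) (by omega)
      refine Real.rpow_le_rpow_of_nonpos (by exact_mod_cast hq1) ?_ (by linarith)
      have : nd (insert q (insert n ((φ S).2 ∪ Q))) x ≤ nd (insert l (insert n (S ∪ Q))) x := by
        refine nd_mono ⟨n, by simp, by omega⟩ fun y hy hyx => ?_
        rw [Finset.mem_insert, Finset.mem_insert, Finset.mem_union] at hy
        by_cases hyq : q < y
        · refine ⟨y, ?_, hyx, le_rfl⟩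
          rw [Finset.mem_insert, Finset.mem_insert, Finset.mem_union]
          rcases hy with h | h | h | h
          · omega
          · exact Or.inr (Or.inl h)
          · exact Or.inr (Or.inr (Or.inl (Finset.mem_filter.2 ⟨h, hyq⟩)))
          · exact Or.inr (Or.inr (Or.inr h))
        · refine ⟨q, by simp, by omega, ?_⟩
          unfold Nat.dist; omega
      exact_mod_cast this
  calc ∑ S ∈ (Ioo l n \ Q).powerset,
      ∏ x ∈ S, (κ * (nd (insert l (insert n (S ∪ Q))) x : ℝ) ^ (-a))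
      ≤ ∑ S ∈ (Ioo l n \ Q).powerset, F (φ S) := Finset.sum_le_sum hle
    _ = ∑ p ∈ (Ioo l n \ Q).powerset.image φ, F p := (Finset.sum_image hinj).symm
    _ ≤ ∑ p ∈ (Ioo l q \ Q).powerset ×ˢ (Ioo q n \ Q).powerset, F p := by
        refine Finset.sum_le_sum_of_subset_of_nonneg ?_ fun p _ _ => ?_
        · intro p hp
          obtain ⟨S, hS, rfl⟩ := Finset.mem_image.1 hp
          exact hmem S hS
        · exact mul_nonneg (Finset.prod_nonneg fun _ _ => mul_nonneg hκ
            (Real.rpow_nonneg (Nat.cast_nonneg _) _)) (Finset.prod_nonneg fun _ _ =>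
            mul_nonneg hκ (Real.rpow_nonneg (Nat.cast_nonneg _) _))

/-- generating function of `gap_sum` -/
theorem gap_gen_int {a A K : ℝ} (ha0 : 0 ≤ a) (ha : a < 1 / 2) (hA : 0 ≤ A) (hK : 0 ≤ K) (N : ℕ)
    (hN : 1 ≤ N) (w : Finset ℕ → ℕ → ℝ)
    (hw0 : ∀ S ⊆ Ioo 0 N, ∀ x ∈ S, 0 ≤ w S x)
    (hw : ∀ S ⊆ Ioo 0 N, ∀ x ∈ S, ∃ y ∈ ext N S, y ≠ x ∧ w S x ≤ A * |(x : ℝ) - y| ^ (-a)) :
    ∑ S ∈ (Ioo 0 N).powerset, (∏ x ∈ S, w S x) * (K * (N : ℝ) ^ (-(1 - a))) ^ S.card ≤
      cG a A K := by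
  have hN0 : (0 : ℝ) < N := by exact_mod_cast hN
  rw [Finset.sum_powerset]
  have h1 : ∀ m ∈ range ((Ioo 0 N).card + 1),
      ∑ S ∈ powersetCard m (Ioo 0 N), (∏ x ∈ S, w S x) * (K * (N : ℝ) ^ (-(1 - a))) ^ S.card ≤
        cS a * wg (1 - a) (A * cS a * K) m := by
    intro m _
    have h2 : ∑ S ∈ powersetCard m (Ioo 0 N),
        (∏ x ∈ S, w S x) * (K * (N : ℝ) ^ (-(1 - a))) ^ S.card =
        (∑ S ∈ powersetCard m (Ioo 0 N), ∏ x ∈ S, w S x) * (K * (N : ℝ) ^ (-(1 - a))) ^ m := by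
      rw [Finset.sum_mul]
      refine Finset.sum_congr rfl fun S hS => ?_
      rw [(Finset.mem_powersetCard.1 hS).2]
    rw [h2]
    have h3 := gap_sum ha0 ha hA m N w
      (fun S hS => hw0 S (Finset.mem_powersetCard.1 hS).1)
      (fun S hS => hw S (Finset.mem_powersetCard.1 hS).1)
    have h4 : (0 : ℝ) ≤ (K * (N : ℝ) ^ (-(1 - a))) ^ m :=
      pow_nonneg (mul_nonneg hK (Real.rpow_nonneg hN0.le _)) _
    refine (mul_le_mul_of_nonneg_right h3 h4).trans (le_of_eq ?_)
    have h5 : (N : ℝ) ^ ((1 - a) * m) * ((N : ℝ) ^ (-(1 - a))) ^ m = 1 := by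
      rw [← Real.rpow_natCast, ← Real.rpow_mul hN0.le, ← Real.rpow_add hN0]
      have : (1 - a) * (m : ℝ) + -(1 - a) * (m : ℝ) = 0 := by ring
      rw [this, Real.rpow_zero]
    unfold wg
    rw [mul_pow K, mul_pow (A * cS a) K]
    calc cS a * (A * cS a) ^ m * ((N : ℝ) ^ ((1 - a) * m) / (m.factorial : ℝ) ^ (1 - a)) *
          (K ^ m * ((N : ℝ) ^ (-(1 - a))) ^ m)
        = cS a * ((A * cS a) ^ m * K ^ m / (m.factorial : ℝ) ^ (1 - a)) *
          ((N : ℝ) ^ ((1 - a) * m) * ((N : ℝ) ^ (-(1 - a))) ^ m) := by ring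
      _ = _ := by rw [h5, mul_one]
  refine (Finset.sum_le_sum h1).trans ?_
  rw [← Finset.mul_sum]
  unfold cG
  have hc := cS_ge ha
  refine mul_le_mul_of_nonneg_left ?_ (by linarith)
  have hC : 0 ≤ A * cS a * K := by positivity
  exact (summable_wg (by linarith) hC).sum_le_tsum _ fun m _ => wg_nonneg hC m

lemma cG_ge {a A K : ℝ} (ha : a < 1 / 2) (hA : 0 ≤ A) (hK : 0 ≤ K) : 1 ≤ cG a A K := by
  unfold cG
  have hc := cS_ge ha
  have hC : 0 ≤ A * cS a * K := by positivity
  have h1 : wg (1 - a) (A * cS a * K) 0 ≤ ∑' m, wg (1 - a) (A * cS a * K) m :=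
    (summable_wg (by linarith) hC).le_tsum 0 fun m _ => wg_nonneg hC m
  have h2 : wg (1 - a) (A * cS a * K) 0 = 1 := by
    unfold wg; simp
  rw [h2] at h1
  nlinarith

/-- interval without marks inside -/
lemma Wt_base {a κ K : ℝ} (ha0 : 0 ≤ a) (ha : a < 1 / 2) (hκ : 0 ≤ κ) (hK : 0 ≤ K) {l n : ℕ}
    (hln : l < n) {Q : Finset ℕ} (hQ : Disjoint (Ioo l n) Q)
    (hκK : κ ≤ K * ((n - l : ℕ) : ℝ) ^ (-(1 - a))) : Wt a κ l n Q ≤ cG a 1 K := by
  set N := n - l with hN
  have hN1 : 1 ≤ N := by omega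
  set w : Finset ℕ → ℕ → ℝ := fun S x =>
    (nd (insert l (insert n (S.image (· + l) ∪ Q))) (x + l) : ℝ) ^ (-a) with hw
  have hgen := gap_gen_int ha0 ha (zero_le_one) hK N hN1 w
    (fun S _ x _ => Real.rpow_nonneg (Nat.cast_nonneg _) _) (by
      intro S hS x hx
      have hxI := Finset.mem_Ioo.1 (hS hx)
      obtain ⟨z, hz, hzx, hd⟩ := exists_nd (P := insert l (insert n (S.image (· + l) ∪ Q)))
        (x := x + l) (y := l) (by simp) (by omega)
      have main : ∀ y : ℕ, y ≠ x → Nat.dist x y ≤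
          nd (insert l (insert n (S.image (· + l) ∪ Q))) (x + l) →
          w S x ≤ 1 * |(x : ℝ) - y| ^ (-a) := by
        intro y hy hle
        rw [one_mul, hw]
        have e : |(x : ℝ) - y| = (Nat.dist x y : ℝ) := by
          rw [Nat.dist_comm]
          unfold Nat.dist
          rcases le_total x y with h | h
          · rw [Nat.sub_eq_zero_of_le h, add_zero, Nat.cast_sub h, abs_sub_comm,
              abs_of_nonneg]
            have : (x : ℝ) ≤ y := by exact_mod_cast h
            linarith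
          · rw [Nat.sub_eq_zero_of_le h, zero_add, Nat.cast_sub h, abs_of_nonneg]
            have : (y : ℝ) ≤ x := by exact_mod_cast h
            linarith
        rw [e]
        refine Real.rpow_le_rpow_of_nonpos ?_ (by exact_mod_cast hle) (by linarith)
        have := dist_pos' hy
        exact_mod_cast this
      rcases le_or_gt z l with h1 | h1
      · refine ⟨0, by simp [ext], by omega, main 0 (by omega) ?_⟩
        rw [hd]; unfold Nat.dist; omega
      · rcases le_or_gt n z with h2 | h2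
        · refine ⟨N, by simp [ext], by omega, main N (by omega) ?_⟩
          rw [hd]; unfold Nat.dist; omega
        · rw [Finset.mem_insert, Finset.mem_insert, Finset.mem_union] at hz
          have hzS : z ∈ S.image (· + l) := by
            rcases hz with h | h | h | h
            · omega
            · omega
            · exact h
            · exact absurd h (Finset.disjoint_left.1 hQ (Finset.mem_Ioo.2 ⟨h1, h2⟩))
          obtain ⟨y, hyS, hy⟩ := Finset.mem_image.1 hzS
          refine ⟨y, by simp [ext, hyS], by omega, main y (by omega) ?_⟩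
          rw [hd]; unfold Nat.dist; omega)
  refine le_trans ?_ hgen
  unfold Wt
  rw [Finset.sdiff_eq_self_of_disjoint hQ]
  set φ : Finset ℕ → Finset ℕ := fun S => S.image (· - l) with hφ
  have hback : ∀ S ∈ (Ioo l n).powerset, (φ S).image (· + l) = S := by
    intro S hS
    rw [hφ, Finset.image_image]
    have : ∀ x ∈ S, ((· + l) ∘ (· - l)) x = x := by
      intro x hx
      have := Finset.mem_Ioo.1 (Finset.mem_powerset.1 hS hx)
      simp only [Function.comp]; omega
    rw [Finset.image_congr (g := id) (fun x hx => this x hx), Finset.image_id]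
  have hinj : Set.InjOn φ ((Ioo l n).powerset : Finset (Finset ℕ)) := by
    intro S hS S' hS' h
    rw [← hback S hS, ← hback S' hS', h]
  have hle : ∀ S ∈ (Ioo l n).powerset,
      ∏ x ∈ S, (κ * (nd (insert l (insert n (S ∪ Q))) x : ℝ) ^ (-a)) ≤
      (∏ x ∈ φ S, w (φ S) x) * (K * (N : ℝ) ^ (-(1 - a))) ^ (φ S).card := by
    intro S hS
    have hinjS : Set.InjOn (· - l) (S : Set ℕ) := by
      intro x hx y hy h
      have h1 := Finset.mem_Ioo.1 (Finset.mem_powerset.1 hS hx)
      have h2 := Finset.mem_Ioo.1 (Finset.mem_powerset.1 hS hy)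
      simp only at h
      omega
    have hc : (φ S).card = S.card := Finset.card_image_of_injOn hinjS
    rw [hc, Finset.prod_mul_distrib, Finset.prod_const, mul_comm]
    have h1 : ∏ x ∈ φ S, w (φ S) x = ∏ x ∈ S, (nd (insert l (insert n (S ∪ Q))) x : ℝ) ^ (-a) := by
      have : ∏ x ∈ φ S, w (φ S) x = ∏ x ∈ S, w (φ S) (x - l) := by
        rw [hφ]; exact Finset.prod_image hinjS
      rw [this]
      refine Finset.prod_congr rfl fun x hx => ?_
      rw [hw]; simp only
      rw [hback S hS]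
      have h1 := Finset.mem_Ioo.1 (Finset.mem_powerset.1 hS hx)
      have : x - l + l = x := by omega
      rw [this]
    rw [h1]
    refine mul_le_mul_of_nonneg_left (pow_le_pow_left₀ hκ hκK _) ?_
    exact Finset.prod_nonneg fun _ _ => Real.rpow_nonneg (Nat.cast_nonneg _) _
  calc ∑ S ∈ (Ioo l n).powerset,
      ∏ x ∈ S, (κ * (nd (insert l (insert n (S ∪ Q))) x : ℝ) ^ (-a))
      ≤ ∑ S ∈ (Ioo l n).powerset,
        (∏ x ∈ φ S, w (φ S) x) * (K * (N : ℝ) ^ (-(1 - a))) ^ (φ S).card :=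
        Finset.sum_le_sum hle
    _ = ∑ S ∈ (Ioo l n).powerset.image φ,
        (∏ x ∈ S, w S x) * (K * (N : ℝ) ^ (-(1 - a))) ^ S.card :=
        (Finset.sum_image (f := fun S => (∏ x ∈ S, w S x) * (K * (N : ℝ) ^ (-(1 - a))) ^ S.card)
          hinj).symm
    _ ≤ ∑ S ∈ (Ioo 0 N).powerset,
        (∏ x ∈ S, w S x) * (K * (N : ℝ) ^ (-(1 - a))) ^ S.card := by
        refine Finset.sum_le_sum_of_subset_of_nonneg ?_ fun S _ _ => ?_
        · intro S' hS'
          obtain ⟨S, hS, rfl⟩ := Finset.mem_image.1 hS'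
          rw [Finset.mem_powerset] at hS ⊢
          intro x hx
          obtain ⟨y, hy, rfl⟩ := Finset.mem_image.1 hx
          have := Finset.mem_Ioo.1 (hS hy)
          exact Finset.mem_Ioo.2 ⟨by omega, by omega⟩
        · exact mul_nonneg (Finset.prod_nonneg fun _ _ => Real.rpow_nonneg (Nat.cast_nonneg _) _)
            (pow_nonneg (mul_nonneg hK (Real.rpow_nonneg (Nat.cast_nonneg _) _)) _)

/-- interval with marks -/
theorem Wt_le {a κ K : ℝ} (ha0 : 0 ≤ a) (ha : a < 1 / 2) (hκ : 0 ≤ κ) (hK : 0 ≤ K) {N : ℕ}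
    (hκK : κ ≤ K * (N : ℝ) ^ (-(1 - a))) (Q : Finset ℕ) :
    ∀ p l n : ℕ, l < n → n - l ≤ N → (Q ∩ Ioo l n).card ≤ p →
      Wt a κ l n Q ≤ cG a 1 K ^ (p + 1) := by
  have hc := cG_ge (a := a) (A := 1) (K := K) ha zero_le_one hK
  intro p
  induction p using Nat.strong_induction_on with
  | _ p ih =>
    intro l n hln hnl hp
    by_cases hne : (Q ∩ Ioo l n).Nonempty
    · obtain ⟨q, hq⟩ := hne
      obtain ⟨hqQ, hqI⟩ := Finset.mem_inter.1 hq
      obtain ⟨h1, h2⟩ := Finset.mem_Ioo.1 hqI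
      set p1 := (Q ∩ Ioo l q).card with hp1
      set p2 := (Q ∩ Ioo q n).card with hp2
      have hsum : p1 + p2 + 1 ≤ p := by
        have hd : Disjoint (Q ∩ Ioo l q) (Q ∩ Ioo q n) := by
          rw [Finset.disjoint_left]
          intro x hx hx'
          have := Finset.mem_Ioo.1 (Finset.mem_inter.1 hx).2
          have := Finset.mem_Ioo.1 (Finset.mem_inter.1 hx').2
          omega
        have hq' : q ∉ (Q ∩ Ioo l q) ∪ (Q ∩ Ioo q n) := by
          rw [Finset.mem_union, not_or]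
          constructor
          · intro h; have := Finset.mem_Ioo.1 (Finset.mem_inter.1 h).2; omega
          · intro h; have := Finset.mem_Ioo.1 (Finset.mem_inter.1 h).2; omega
        have hsub : insert q ((Q ∩ Ioo l q) ∪ (Q ∩ Ioo q n)) ⊆ Q ∩ Ioo l n := by
          intro x hx
          rw [Finset.mem_insert, Finset.mem_union] at hx
          rcases hx with h | h | h
          · rw [h]; exact hq
          · obtain ⟨h3, h4⟩ := Finset.mem_inter.1 h
            have := Finset.mem_Ioo.1 h4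
            exact Finset.mem_inter.2 ⟨h3, Finset.mem_Ioo.2 ⟨by omega, by omega⟩⟩
          · obtain ⟨h3, h4⟩ := Finset.mem_inter.1 h
            have := Finset.mem_Ioo.1 h4
            exact Finset.mem_inter.2 ⟨h3, Finset.mem_Ioo.2 ⟨by omega, by omega⟩⟩
        have := Finset.card_le_card hsub
        rw [Finset.card_insert_of_notMem hq', Finset.card_union_of_disjoint hd] at this
        omega
      have i1 := ih p1 (by omega) l q h1 (by omega) le_rfl
      have i2 := ih p2 (by omega) q n h2 (by omega) le_rfl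
      calc Wt a κ l n Q ≤ Wt a κ l q Q * Wt a κ q n Q := Wt_split ha0 hκ hqQ h1 h2
        _ ≤ cG a 1 K ^ (p1 + 1) * cG a 1 K ^ (p2 + 1) :=
            mul_le_mul i1 i2 (Wt_nonneg hκ _ _ _) (pow_nonneg (by linarith) _)
        _ = cG a 1 K ^ (p1 + p2 + 1 + 1) := by rw [← pow_add]; congr 1; ring
        _ ≤ cG a 1 K ^ (p + 1) := pow_le_pow_right₀ hc (by omega)
    · have hd : Disjoint (Ioo l n) Q := by
        rw [Finset.disjoint_left]
        intro x hx hx'
        exact hne ⟨x, Finset.mem_inter.2 ⟨hx', hx⟩⟩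
      have hnl0 : (0 : ℝ) < ((n - l : ℕ) : ℝ) := by
        have : 0 < n - l := by omega
        exact_mod_cast this
      have h1 : κ ≤ K * ((n - l : ℕ) : ℝ) ^ (-(1 - a)) := by
        refine hκK.trans (mul_le_mul_of_nonneg_left ?_ hK)
        exact Real.rpow_le_rpow_of_nonpos hnl0 (by exact_mod_cast hnl) (by linarith)
      refine (Wt_base ha0 ha hκ hK hln hd h1).trans ?_
      calc cG a 1 K = cG a 1 K ^ 1 := (pow_one _).symm
        _ ≤ _ := pow_le_pow_right₀ hc (by omega)

lemma cast_dist (x y : ℕ) : (Nat.dist x y : ℝ) = |(x : ℝ) - y| := by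
  rw [Nat.dist_comm]
  unfold Nat.dist
  rcases le_total x y with h | h
  · rw [Nat.sub_eq_zero_of_le h, add_zero, Nat.cast_sub h, abs_sub_comm, abs_of_nonneg]
    have : (x : ℝ) ≤ y := by exact_mod_cast h
    linarith
  · rw [Nat.sub_eq_zero_of_le h, zero_add, Nat.cast_sub h, abs_of_nonneg]
    have : (y : ℝ) ≤ x := by exact_mod_cast h
    linarith

/-- **Generating function on the circle `Z/N` with marks `Q`**: the weight of a point `x` of `S` is
at most `A d^(-a)`, `d` the cyclic distance to some other point of `S ∪ Q`, or at most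
`A N^(-a)`. -/
theorem gap_circle {a A K : ℝ} (ha0 : 0 ≤ a) (ha : a < 1 / 2) (hA : 0 ≤ A) (hK : 0 ≤ K)
    (M N : ℕ) (hN : 1 ≤ N) (Q : Finset ℕ) (hQ : Q ⊆ range N) (hQM : Q.card ≤ M)
    (w : Finset ℕ → ℕ → ℝ)
    (hw0 : ∀ S ⊆ range N \ Q, ∀ x ∈ S, 0 ≤ w S x)
    (hw : ∀ S ⊆ range N \ Q, ∀ x ∈ S, w S x ≤ A * (N : ℝ) ^ (-a) ∨
      ∃ y ∈ S ∪ Q, y ≠ x ∧ w S x ≤ A * (min |(x : ℝ) - y| (N - |(x : ℝ) - y|)) ^ (-a)) :
    ∑ S ∈ (range N \ Q).powerset, (∏ x ∈ S, w S x) * (K * (N : ℝ) ^ (-(1 - a))) ^ S.card ≤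
      (1 + A * K) * cG a 1 (A * K) ^ (M + 1) := by
  have hN0 : (0 : ℝ) < N := by exact_mod_cast hN
  have hN1 : (1 : ℝ) ≤ N := by exact_mod_cast hN
  set κ : ℝ := K * (N : ℝ) ^ (-(1 - a)) with hκ
  have hκ0 : 0 ≤ κ := mul_nonneg hK (Real.rpow_nonneg hN0.le _)
  have hNp : (N : ℝ) ^ (-(1 - a)) ≤ 1 := Real.rpow_le_one_of_one_le_of_nonpos hN1 (by linarith)
  have hκK : κ ≤ K := by
    calc κ ≤ K * 1 := mul_le_mul_of_nonneg_left hNp hK
      _ = K := mul_one K
  have hc := cG_ge (a := a) (A := 1) (K := A * K) ha zero_le_one (mul_nonneg hA hK)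
  have hWt : Wt a (A * κ) 0 N Q ≤ cG a 1 (A * K) ^ (M + 1) := by
    have h1 := Wt_le ha0 ha (mul_nonneg hA hκ0) (mul_nonneg hA hK) (N := N)
      (κ := A * κ) (K := A * K) (by rw [hκ]; linarith [mul_assoc A K ((N : ℝ) ^ (-(1 - a)))]) Q
      (Q ∩ Ioo 0 N).card 0 N (by omega) (by omega) le_rfl
    refine h1.trans (pow_le_pow_right₀ hc ?_)
    have := Finset.card_le_card (Finset.inter_subset_left (s₁ := Q) (s₂ := Ioo 0 N))
    omega
  -- the weights are dominated by those of the interval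
  have hdom : ∀ S ⊆ range N \ Q, ∀ x ∈ S, x ≠ 0 →
      w S x ≤ A * (nd (insert 0 (insert N ((S.erase 0) ∪ Q))) x : ℝ) ^ (-a) := by
    intro S hS x hx hx0
    have hxN : x < N := Finset.mem_range.1 (Finset.mem_sdiff.1 (hS hx)).1
    have hnd0 : nd (insert 0 (insert N ((S.erase 0) ∪ Q))) x ≤ x := by
      have := nd_le (P := insert 0 (insert N ((S.erase 0) ∪ Q))) (x := x) (y := 0) (by simp)
        (by omega)
      unfold Nat.dist at this; omega
    have hndN : nd (insert 0 (insert N ((S.erase 0) ∪ Q))) x ≤ N - x := by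
      have := nd_le (P := insert 0 (insert N ((S.erase 0) ∪ Q))) (x := x) (y := N) (by simp)
        (by omega)
      unfold Nat.dist at this; omega
    have hpos : 1 ≤ nd (insert 0 (insert N ((S.erase 0) ∪ Q))) x :=
      nd_pos (y := 0) (by simp) (by omega)
    have hposR : (0 : ℝ) < nd (insert 0 (insert N ((S.erase 0) ∪ Q))) x := by exact_mod_cast hpos
    have h0R : (nd (insert 0 (insert N ((S.erase 0) ∪ Q))) x : ℝ) ≤ x := by exact_mod_cast hnd0
    have hNR : (nd (insert 0 (insert N ((S.erase 0) ∪ Q))) x : ℝ) ≤ N - x := by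
      have : (((N - x : ℕ)) : ℝ) = N - x := by rw [Nat.cast_sub hxN.le]
      rw [← this]; exact_mod_cast hndN
    have hxR : (x : ℝ) ≤ N := by exact_mod_cast hxN.le
    rcases hw S hS x hx with h | ⟨y, hy, hyx, h⟩
    · refine h.trans (mul_le_mul_of_nonneg_left ?_ hA)
      exact Real.rpow_le_rpow_of_nonpos hposR (by linarith) (by linarith)
    · refine h.trans (mul_le_mul_of_nonneg_left ?_ hA)
      refine Real.rpow_le_rpow_of_nonpos hposR (le_min ?_ ?_) (by linarith)
      · rw [← cast_dist]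
        have : nd (insert 0 (insert N ((S.erase 0) ∪ Q))) x ≤ Nat.dist x y := by
          refine nd_le ?_ hyx
          rw [Finset.mem_insert, Finset.mem_insert, Finset.mem_union, Finset.mem_erase]
          by_cases hy0 : y = 0
          · exact Or.inl hy0
          · rcases Finset.mem_union.1 hy with h' | h'
            · exact Or.inr (Or.inr (Or.inl ⟨hy0, h'⟩))
            · exact Or.inr (Or.inr (Or.inr h'))
        exact_mod_cast this
      · have hyN : y < N := by
          rcases Finset.mem_union.1 hy with h' | h'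
          · exact Finset.mem_range.1 (Finset.mem_sdiff.1 (hS h')).1
          · exact Finset.mem_range.1 (hQ h')
        have hyR : (y : ℝ) ≤ N := by exact_mod_cast hyN.le
        have hy0 : (0 : ℝ) ≤ y := Nat.cast_nonneg y
        rcases le_total (x : ℝ) y with h' | h'
        · rw [abs_of_nonpos (by linarith)]; linarith
        · rw [abs_of_nonneg (by linarith)]; linarith
  have hzero : ∀ S ⊆ range N \ Q, 0 ∈ S → w S 0 ≤ A := by
    intro S hS h0
    have hone : ∀ t : ℝ, 1 ≤ t → A * t ^ (-a) ≤ A := fun t ht => by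
      have := Real.rpow_le_one_of_one_le_of_nonpos ht (by linarith : -a ≤ 0)
      calc A * t ^ (-a) ≤ A * 1 := mul_le_mul_of_nonneg_left this hA
        _ = A := mul_one A
    rcases hw S hS 0 h0 with h | ⟨y, hy, hyx, h⟩
    · exact h.trans (hone _ hN1)
    · refine h.trans (hone _ (le_min ?_ ?_))
      · rw [← cast_dist]
        exact_mod_cast dist_pos' hyx
      · have hyN : y < N := by
          rcases Finset.mem_union.1 hy with h' | h'
          · exact Finset.mem_range.1 (Finset.mem_sdiff.1 (hS h')).1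
          · exact Finset.mem_range.1 (hQ h')
        have h1 : (y : ℝ) + 1 ≤ N := by exact_mod_cast hyN
        have hy0 : (0 : ℝ) ≤ y := Nat.cast_nonneg y
        push_cast
        rw [zero_sub, abs_neg, abs_of_nonneg hy0]; linarith
  set G : Finset ℕ → ℝ := fun S =>
    ∏ x ∈ S, (A * κ * (nd (insert 0 (insert N (S ∪ Q))) x : ℝ) ^ (-a)) with hG
  have hG0 : ∀ S, 0 ≤ G S := fun S => Finset.prod_nonneg fun _ _ =>
    mul_nonneg (mul_nonneg hA hκ0) (Real.rpow_nonneg (Nat.cast_nonneg _) _)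
  have hF : ∀ S ⊆ range N \ Q, (∏ x ∈ S, w S x) * κ ^ S.card ≤
      (if 0 ∈ S then A * κ else 1) * G (S.erase 0) := by
    intro S hS
    have e1 : ∏ x ∈ S.erase 0, w S x * κ ≤ G (S.erase 0) := by
      refine Finset.prod_le_prod (fun x hx => ?_) fun x hx => ?_
      · exact mul_nonneg (hw0 S hS x (Finset.mem_of_mem_erase hx)) hκ0
      · obtain ⟨hx0, hxS⟩ := Finset.mem_erase.1 hx
        have := mul_le_mul_of_nonneg_right (hdom S hS x hxS hx0) hκ0
        linarith [mul_right_comm A ((nd (insert 0 (insert N ((S.erase 0) ∪ Q))) x : ℝ) ^ (-a)) κ]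
    rw [← Finset.prod_const, ← Finset.prod_mul_distrib]
    by_cases h0 : 0 ∈ S
    · rw [if_pos h0, ← Finset.mul_prod_erase S _ h0]
      refine mul_le_mul (mul_le_mul_of_nonneg_right (hzero S hS h0) hκ0) e1 ?_
        (mul_nonneg hA hκ0)
      exact Finset.prod_nonneg fun x hx =>
        mul_nonneg (hw0 S hS x (Finset.mem_of_mem_erase hx)) hκ0
    · rw [if_neg h0, one_mul]
      rw [Finset.erase_eq_of_notMem h0] at e1 ⊢
      exact e1
  have hsum : ∑ S ∈ (range N \ Q).powerset, (if 0 ∈ S then A * κ else 1) * G (S.erase 0) ≤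
      (1 + A * κ) * Wt a (A * κ) 0 N Q := by
    have hsub : ∀ S ⊆ range N \ Q, S.erase 0 ∈ (Ioo 0 N \ Q).powerset := by
      intro S hS
      rw [Finset.mem_powerset]
      intro x hx
      obtain ⟨hx0, hxS⟩ := Finset.mem_erase.1 hx
      obtain ⟨h1, h2⟩ := Finset.mem_sdiff.1 (hS hxS)
      exact Finset.mem_sdiff.2 ⟨Finset.mem_Ioo.2 ⟨by omega, Finset.mem_range.1 h1⟩, h2⟩
    have hWG : Wt a (A * κ) 0 N Q = ∑ S ∈ (Ioo 0 N \ Q).powerset, G S := rfl
    rw [hWG, ← Finset.sum_filter_add_sum_filter_not _ (fun S => 0 ∈ S), add_mul, one_mul, add_comm]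
    refine add_le_add ?_ ?_
    · -- without `0`
      have : ∀ S ∈ ((range N \ Q).powerset).filter (fun S => ¬ 0 ∈ S),
          (if 0 ∈ S then A * κ else 1) * G (S.erase 0) = G S := by
        intro S hS
        have h0 := (Finset.mem_filter.1 hS).2
        rw [if_neg h0, one_mul, Finset.erase_eq_of_notMem h0]
      rw [Finset.sum_congr rfl this]
      refine Finset.sum_le_sum_of_subset_of_nonneg ?_ fun S _ _ => hG0 S
      intro S hS
      obtain ⟨h1, h2⟩ := Finset.mem_filter.1 hS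
      have := hsub S (Finset.mem_powerset.1 h1)
      rwa [Finset.erase_eq_of_notMem h2] at this
    · have h1 : ∀ S ∈ ((range N \ Q).powerset).filter (fun S => 0 ∈ S),
          (if 0 ∈ S then A * κ else 1) * G (S.erase 0) = A * κ * G (S.erase 0) := by
        intro S hS
        rw [if_pos (Finset.mem_filter.1 hS).2]
      rw [Finset.sum_congr rfl h1, ← Finset.mul_sum]
      refine mul_le_mul_of_nonneg_left ?_ (mul_nonneg hA hκ0)
      have hinj : Set.InjOn (fun S : Finset ℕ => S.erase 0)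
          (((range N \ Q).powerset).filter (fun S => 0 ∈ S) : Finset (Finset ℕ)) := by
        intro S hS S' hS' h
        have h2 := (Finset.mem_filter.1 hS).2
        have h3 := (Finset.mem_filter.1 hS').2
        simp only at h
        rw [← Finset.insert_erase h2, ← Finset.insert_erase h3, h]
      rw [← Finset.sum_image (f := G) hinj]
      refine Finset.sum_le_sum_of_subset_of_nonneg ?_ fun S _ _ => hG0 S
      intro S' hS'
      obtain ⟨S, hS, rfl⟩ := Finset.mem_image.1 hS'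
      exact hsub S (Finset.mem_powerset.1 (Finset.mem_filter.1 hS).1)
  calc ∑ S ∈ (range N \ Q).powerset, (∏ x ∈ S, w S x) * κ ^ S.card
      ≤ ∑ S ∈ (range N \ Q).powerset, (if 0 ∈ S then A * κ else 1) * G (S.erase 0) :=
        Finset.sum_le_sum fun S hS => hF S (Finset.mem_powerset.1 hS)
    _ ≤ (1 + A * κ) * Wt a (A * κ) 0 N Q := hsum
    _ ≤ (1 + A * K) * cG a 1 (A * K) ^ (M + 1) := by
        refine mul_le_mul ?_ hWt (Wt_nonneg (mul_nonneg hA hκ0) _ _ _) (by positivity)
        have := mul_le_mul_of_nonneg_left hκK hA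
        linarith

end Pool.Agent.H16.Q1
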