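import Pool.Agent.H16.Q1.Gap

/-! Sums over `m`-point subsets of an interval (or of a circle with a mark) of products of powers
of the distances to the nearest neighbour. -/

namespace Pool.Agent.H16.Q1

open Finset

/-- telescoping -/
lemma tele (m : ℕ) (f : Fin (m + 2) → ℕ) (hf : StrictMono f) (h0 : f 0 = 0) (j : Fin (m + 2)) :
    f j = ∑ i ∈ univ.filter (fun i : Fin (m + 1) => i.castSucc < j), (f i.succ - f i.castSucc) := by
  induction j using Fin.induction with
  | zero => simp [h0]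
  | succ j ih =>
    have h1 : univ.filter (fun i : Fin (m + 1) => i.castSucc < j.succ) =
        insert j (univ.filter (fun i : Fin (m + 1) => i.castSucc < j.castSucc)) := by
      ext i
      simp only [Finset.mem_filter, mem_univ, true_and, Finset.mem_insert, Fin.lt_def,
        Fin.val_castSucc, Fin.val_succ, Fin.ext_iff]
      omega
    rw [h1, Finset.sum_insert (by simp), ← ih]
    have := hf (Fin.castSucc_lt_succ (i := j))
    omega

/-- all the points, with the two ends -/
def ext (N : ℕ) (S : Finset ℕ) : Finset ℕ := insert 0 (insert N S)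

lemma key {a A : ℝ} (hA : 0 ≤ A) (ha0 : 0 ≤ a) {m N : ℕ} {S : Finset ℕ} (hN : 0 < N)
    (hS : S ∈ powersetCard m (Ioo 0 N)) (w : ℕ → ℝ) (hw0 : ∀ x ∈ S, 0 ≤ w x)
    (hw : ∀ x ∈ S, ∃ y ∈ ext N S, y ≠ x ∧ w x ≤ A * |(x : ℝ) - y| ^ (-a)) :
    ∃ g ∈ comps (m + 1) N,
      (∏ x ∈ S, w x ≤ A ^ m * ∏ i : Fin m, ((g i.castSucc : ℝ) ^ (-a) + (g i.succ : ℝ) ^ (-a))) ∧
      (∀ x, x ∈ S ↔ (x ≠ 0 ∧ x ≠ N ∧ ∃ j : Fin (m + 2),
        x = ∑ i ∈ univ.filter (fun i : Fin (m + 1) => i.castSucc < j), g i)) := by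
  obtain ⟨hSs, hSc⟩ := Finset.mem_powersetCard.1 hS
  have h0S : 0 ∉ S := fun h => by have := Finset.mem_Ioo.1 (hSs h); omega
  have hNS : N ∉ S := fun h => by have := Finset.mem_Ioo.1 (hSs h); omega
  have hcard : (ext N S).card = m + 2 := by
    unfold ext
    rw [Finset.card_insert_of_notMem, Finset.card_insert_of_notMem hNS, hSc]
    rw [Finset.mem_insert, not_or]
    exact ⟨by omega, h0S⟩
  set f := (ext N S).orderEmbOfFin hcard with hf
  have hfm : StrictMono f := f.strictMono
  have hrange : ∀ x, x ∈ ext N S ↔ ∃ j, f j = x := by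
    intro x
    have := Finset.range_orderEmbOfFin (ext N S) hcard
    rw [← hf] at this
    rw [← Finset.mem_coe, ← this, Set.mem_range]
  have h0 : f 0 = 0 := by
    obtain ⟨j, hj⟩ := (hrange 0).1 (by simp [ext])
    have : f 0 ≤ f j := hfm.monotone (Fin.zero_le j)
    omega
  have hle : ∀ x ∈ ext N S, x ≤ N := by
    intro x hx
    unfold ext at hx
    rw [Finset.mem_insert, Finset.mem_insert] at hx
    rcases hx with h | h | h
    · omega
    · omega
    · have := Finset.mem_Ioo.1 (hSs h); omega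
  have hl : f (Fin.last (m + 1)) = N := by
    obtain ⟨j, hj⟩ := (hrange N).1 (by simp [ext])
    have h1 : f j ≤ f (Fin.last (m + 1)) := hfm.monotone (Fin.le_last j)
    have h2 := hle _ ((hrange _).2 ⟨Fin.last (m + 1), rfl⟩)
    omega
  set g : Fin (m + 1) → ℕ := fun j => f j.succ - f j.castSucc with hg
  have hgpos : ∀ j, 1 ≤ g j := by
    intro j
    have := hfm (Fin.castSucc_lt_succ (i := j))
    rw [hg]; simp only; omega
  have htele := tele m f hfm h0
  refine ⟨g, mem_comps.2 ⟨hgpos, ?_⟩, ?_, ?_⟩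
  · have := htele (Fin.last (m + 1))
    rw [hl] at this
    rw [this]
    symm
    refine Finset.sum_congr ?_ fun _ _ => rfl
    ext i
    simp [Fin.castSucc_lt_last]
  · -- the product
    have hS' : S = univ.image (fun i : Fin m => f i.succ.castSucc) := by
      ext x
      rw [Finset.mem_image]
      constructor
      · intro hx
        have hx' : x ∈ ext N S := by simp [ext, hx]
        obtain ⟨j, hj⟩ := (hrange x).1 hx'
        have hj0 : j ≠ 0 := fun h => h0S (by rw [h, h0] at hj; rwa [hj])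
        have hjl : j ≠ Fin.last (m + 1) := fun h => hNS (by rw [h, hl] at hj; rwa [hj])
        have h1 : j.val ≠ 0 := fun h => hj0 (Fin.ext h)
        have h2 : j.val ≠ m + 1 := fun h => hjl (Fin.ext h)
        have h3 := j.isLt
        refine ⟨⟨j.val - 1, by omega⟩, mem_univ _, ?_⟩
        rw [← hj]
        congr 1
        ext
        simp only [Fin.val_castSucc, Fin.val_succ]
        omega
      · rintro ⟨i, -, rfl⟩
        have h1 : f i.succ.castSucc ∈ ext N S := (hrange _).2 ⟨_, rfl⟩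
        have h2 : f 0 < f i.succ.castSucc := hfm (by
          rw [Fin.lt_def]; simp)
        have h3 : f i.succ.castSucc < f (Fin.last (m + 1)) := hfm (Fin.castSucc_lt_last _)
        rw [h0] at h2
        rw [hl] at h3
        unfold ext at h1
        rw [Finset.mem_insert, Finset.mem_insert] at h1
        rcases h1 with h | h | h
        · omega
        · omega
        · exact h
    have hinj : Set.InjOn (fun i : Fin m => f i.succ.castSucc) (univ : Finset (Fin m)) := by
      intro i _ i' _ h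
      have := f.injective h
      rw [Fin.ext_iff] at this
      simp only [Fin.val_castSucc, Fin.val_succ] at this
      exact Fin.ext (by omega)
    have hprod : ∏ x ∈ S, w x = ∏ i : Fin m, w (f i.succ.castSucc) := by
      conv_lhs => rw [hS']
      rw [Finset.prod_image hinj]
    rw [hprod]
    have hone : ∀ i : Fin m, w (f i.succ.castSucc) ≤
        A * ((g i.castSucc : ℝ) ^ (-a) + (g i.succ : ℝ) ^ (-a)) := by
      intro i
      have hx : f i.succ.castSucc ∈ S := by
        rw [hS']; exact Finset.mem_image_of_mem _ (mem_univ i)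
      obtain ⟨y, hy, hyx, hwy⟩ := hw _ hx
      obtain ⟨j, hj⟩ := (hrange y).1 hy
      refine hwy.trans (mul_le_mul_of_nonneg_left ?_ hA)
      have hp1 : (0 : ℝ) ≤ (g i.castSucc : ℝ) ^ (-a) := Real.rpow_nonneg (Nat.cast_nonneg _) _
      have hp2 : (0 : ℝ) ≤ (g i.succ : ℝ) ^ (-a) := Real.rpow_nonneg (Nat.cast_nonneg _) _
      rcases lt_or_gt_of_ne hyx with h | h
      · -- `y` before `x`
        have h1 : j ≤ i.castSucc.castSucc := by
          rw [← hj] at h
          have := hfm.lt_iff_lt.1 h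
          rw [Fin.lt_def] at this
          rw [Fin.le_def]
          simp only [Fin.val_castSucc, Fin.val_succ] at this ⊢
          omega
        have h2 : y ≤ f i.castSucc.castSucc := by rw [← hj]; exact hfm.monotone h1
        have h3 : f i.castSucc.castSucc < f i.succ.castSucc := hfm (by
          rw [Fin.lt_def]; simp)
        have h4 : (g i.castSucc : ℝ) ≤ |((f i.succ.castSucc : ℕ) : ℝ) - y| := by
          have h5 : g i.castSucc + y ≤ f i.succ.castSucc := by
            rw [hg]; simp only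
            have : i.castSucc.succ = i.succ.castSucc := by ext; simp
            rw [this]; omega
          have h6 : ((g i.castSucc : ℕ) : ℝ) + y ≤ f i.succ.castSucc := by exact_mod_cast h5
          refine le_trans ?_ (le_abs_self _)
          linarith
        have h5 : |((f i.succ.castSucc : ℕ) : ℝ) - y| ^ (-a) ≤ (g i.castSucc : ℝ) ^ (-a) :=
          Real.rpow_le_rpow_of_nonpos (by exact_mod_cast hgpos _) h4 (by linarith)
        linarith
      · have h1 : i.succ.succ ≤ j := by
          rw [← hj] at h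
          have := hfm.lt_iff_lt.1 h
          rw [Fin.lt_def] at this
          rw [Fin.le_def]
          simp only [Fin.val_castSucc, Fin.val_succ] at this ⊢
          omega
        have h2 : f i.succ.succ ≤ y := by rw [← hj]; exact hfm.monotone h1
        have h3 : f i.succ.castSucc < f i.succ.succ := hfm (by
          rw [Fin.lt_def]; simp)
        have h4 : (g i.succ : ℝ) ≤ |((f i.succ.castSucc : ℕ) : ℝ) - y| := by
          have h5 : g i.succ + f i.succ.castSucc ≤ y := by
            rw [hg]; simp only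
            omega
          have h6 : ((g i.succ : ℕ) : ℝ) + f i.succ.castSucc ≤ y := by exact_mod_cast h5
          rw [abs_sub_comm]
          refine le_trans ?_ (le_abs_self _)
          linarith
        have h5 : |((f i.succ.castSucc : ℕ) : ℝ) - y| ^ (-a) ≤ (g i.succ : ℝ) ^ (-a) :=
          Real.rpow_le_rpow_of_nonpos (by exact_mod_cast hgpos _) h4 (by linarith)
        linarith
    calc ∏ i : Fin m, w (f i.succ.castSucc)
        ≤ ∏ i : Fin m, A * ((g i.castSucc : ℝ) ^ (-a) + (g i.succ : ℝ) ^ (-a)) := by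
          refine Finset.prod_le_prod (fun i _ => hw0 _ ?_) fun i _ => hone i
          rw [hS']; exact Finset.mem_image_of_mem _ (mem_univ i)
      _ = _ := by rw [Finset.prod_mul_distrib]; simp
  · intro x
    constructor
    · intro hx
      refine ⟨fun h => h0S (h ▸ hx), fun h => hNS (h ▸ hx), ?_⟩
      have hx' : x ∈ ext N S := by simp [ext, hx]
      obtain ⟨j, hj⟩ := (hrange x).1 hx'
      exact ⟨j, by rw [← hj]; exact htele j⟩
    · rintro ⟨hx0, hxN, j, hj⟩
      have h1 : x = f j := by rw [hj]; exact (htele j).symm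
      have h2 : x ∈ ext N S := (hrange x).2 ⟨j, h1.symm⟩
      unfold ext at h2
      rw [Finset.mem_insert, Finset.mem_insert] at h2
      rcases h2 with h | h | h
      · exact absurd h hx0
      · exact absurd h hxN
      · exact h

/-- exponents of the gaps -/
def bb {m : ℕ} (a : ℝ) (T : Finset (Fin m)) (j : Fin (m + 1)) : ℝ :=
  (∑ i ∈ T, if i.castSucc = j then a else 0) + ∑ i ∈ univ \ T, if i.succ = j then a else 0

lemma bb_nonneg {m : ℕ} {a : ℝ} (ha0 : 0 ≤ a) (T : Finset (Fin m)) (j : Fin (m + 1)) :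
    0 ≤ bb a T j := by
  unfold bb
  refine add_nonneg (Finset.sum_nonneg fun i _ => ?_) (Finset.sum_nonneg fun i _ => ?_) <;>
  · split_ifs
    · exact ha0
    · exact le_rfl

lemma sum_ite_le {m : ℕ} {a : ℝ} (ha0 : 0 ≤ a) (T : Finset (Fin m)) (φ : Fin m → Fin (m + 1))
    (hφ : Function.Injective φ) (j : Fin (m + 1)) :
    (∑ i ∈ T, if φ i = j then a else 0) ≤ a := by
  rw [← Finset.sum_filter, Finset.sum_const, nsmul_eq_mul]
  have h1 : (T.filter (fun i => φ i = j)).card ≤ 1 := by
    rw [Finset.card_le_one]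
    intro i hi i' hi'
    exact hφ ((Finset.mem_filter.1 hi).2.trans (Finset.mem_filter.1 hi').2.symm)
  have h2 : (((T.filter (fun i => φ i = j)).card : ℕ) : ℝ) ≤ 1 := by exact_mod_cast h1
  nlinarith

lemma bb_le {m : ℕ} {a : ℝ} (ha0 : 0 ≤ a) (T : Finset (Fin m)) (j : Fin (m + 1)) :
    bb a T j ≤ 2 * a := by
  unfold bb
  have h1 := sum_ite_le ha0 T Fin.castSucc (Fin.castSucc_injective m) j
  have h2 := sum_ite_le ha0 (univ \ T) Fin.succ (Fin.succ_injective m) j
  linarith

lemma sum_bb {m : ℕ} (a : ℝ) (T : Finset (Fin m)) : ∑ j, bb a T j = m * a := by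
  unfold bb
  rw [Finset.sum_add_distrib, Finset.sum_comm, Finset.sum_comm (s := univ) (t := univ \ T)]
  simp only [Finset.sum_ite_eq, mem_univ, if_true, Finset.sum_const, nsmul_eq_mul]
  rw [← add_mul, ← Nat.cast_add]
  congr 2
  have := Finset.card_sdiff_add_card_eq_card (Finset.subset_univ T)
  rw [Finset.card_univ, Fintype.card_fin] at this
  omega

lemma prod_bb {m : ℕ} (a : ℝ) (T : Finset (Fin m)) (g : Fin (m + 1) → ℕ) (hg : ∀ j, 1 ≤ g j) :
    (∏ i ∈ T, (g i.castSucc : ℝ) ^ (-a)) * ∏ i ∈ univ \ T, (g i.succ : ℝ) ^ (-a) =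
      ∏ j, (g j : ℝ) ^ (-(bb a T j)) := by
  have hg0 : ∀ j, (0 : ℝ) < g j := fun j => by exact_mod_cast hg j
  have h1 : ∀ j, (g j : ℝ) ^ (-(bb a T j)) =
      (∏ i ∈ T, if i.castSucc = j then (g j : ℝ) ^ (-a) else 1) *
      ∏ i ∈ univ \ T, if i.succ = j then (g j : ℝ) ^ (-a) else 1 := by
    intro j
    unfold bb
    rw [neg_add, Real.rpow_add (hg0 j), ← Finset.sum_neg_distrib, ← Finset.sum_neg_distrib,
      Real.rpow_sum_of_pos (hg0 j), Real.rpow_sum_of_pos (hg0 j)]
    congr 1 <;>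
    · refine Finset.prod_congr rfl fun i _ => ?_
      split_ifs
      · rfl
      · simp
  simp_rw [h1]
  rw [Finset.prod_mul_distrib, Finset.prod_comm, Finset.prod_comm (s := univ) (t := univ \ T)]
  simp only [Finset.prod_ite_eq, mem_univ, if_true]

/-- the constant of `gap_sum` -/
noncomputable def cS (a : ℝ) : ℝ := 4 * (Real.exp 1 * cg (2 * a))

lemma cS_ge {a : ℝ} (ha : a < 1 / 2) : 1 ≤ cS a := by
  unfold cS
  have h1 := cg_ge (β := 2 * a) (by linarith)
  have h2 : 1 ≤ Real.exp 1 := Real.one_le_exp (by norm_num)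
  nlinarith

/-- **Sum over the `m`-point subsets `S` of an open interval `(0, N)`** of a product of weights
`w S x ≤ A d^(-a)`, where `d` is the distance of `x` to some other point of `S`, or to one of the
two ends of the interval. -/
theorem gap_sum {a A : ℝ} (ha0 : 0 ≤ a) (ha : a < 1 / 2) (hA : 0 ≤ A) (m N : ℕ)
    (w : Finset ℕ → ℕ → ℝ)
    (hw0 : ∀ S ∈ powersetCard m (Ioo 0 N), ∀ x ∈ S, 0 ≤ w S x)
    (hw : ∀ S ∈ powersetCard m (Ioo 0 N), ∀ x ∈ S,
      ∃ y ∈ ext N S, y ≠ x ∧ w S x ≤ A * |(x : ℝ) - y| ^ (-a)) :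
    ∑ S ∈ powersetCard m (Ioo 0 N), ∏ x ∈ S, w S x ≤
      cS a * (A * cS a) ^ m * ((N : ℝ) ^ ((1 - a) * m) / (m.factorial : ℝ) ^ (1 - a)) := by
  rcases Nat.eq_zero_or_pos m with hm | hm
  · subst hm
    simp [cS_ge ha]
  by_cases hmN : m + 1 ≤ N
  swap
  · have : powersetCard m (Ioo 0 N) = ∅ := by
      rw [Finset.powersetCard_eq_empty, Nat.card_Ioo]
      omega
    rw [this, Finset.sum_empty]
    have := cS_ge ha
    have h1 : (0 : ℝ) < (m.factorial : ℝ) ^ (1 - a) :=
      Real.rpow_pos_of_pos (by exact_mod_cast m.factorial_pos) _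
    have h2 : (0 : ℝ) ≤ (N : ℝ) ^ ((1 - a) * m) := Real.rpow_nonneg (Nat.cast_nonneg _) _
    positivity
  have hN : 0 < N := by omega
  set Φ : (Fin (m + 1) → ℕ) → ℝ := fun g =>
    A ^ m * ∏ i : Fin m, ((g i.castSucc : ℝ) ^ (-a) + (g i.succ : ℝ) ^ (-a)) with hΦ
  have hΦ0 : ∀ g, 0 ≤ Φ g := fun g => mul_nonneg (pow_nonneg hA _) (Finset.prod_nonneg fun i _ =>
    add_nonneg (Real.rpow_nonneg (Nat.cast_nonneg _) _) (Real.rpow_nonneg (Nat.cast_nonneg _) _))
  have hk : ∀ S ∈ powersetCard m (Ioo 0 N), ∃ g ∈ comps (m + 1) N,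
      (∏ x ∈ S, w S x ≤ Φ g) ∧
      (∀ x, x ∈ S ↔ (x ≠ 0 ∧ x ≠ N ∧ ∃ j : Fin (m + 2),
        x = ∑ i ∈ univ.filter (fun i : Fin (m + 1) => i.castSucc < j), g i)) :=
    fun S hS => key hA ha0 hN hS (w S) (hw0 S hS) (hw S hS)
  choose! G hG1 hG2 hG3 using hk
  have hinj : Set.InjOn G (powersetCard m (Ioo 0 N) : Finset (Finset ℕ)) := by
    intro S hS S' hS' h
    ext x
    rw [hG3 S hS x, hG3 S' hS' x, h]
  have h1 : ∑ S ∈ powersetCard m (Ioo 0 N), ∏ x ∈ S, w S x ≤ ∑ g ∈ comps (m + 1) N, Φ g := by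
    calc ∑ S ∈ powersetCard m (Ioo 0 N), ∏ x ∈ S, w S x
        ≤ ∑ S ∈ powersetCard m (Ioo 0 N), Φ (G S) := Finset.sum_le_sum hG2
      _ = ∑ g ∈ (powersetCard m (Ioo 0 N)).image G, Φ g := (Finset.sum_image hinj).symm
      _ ≤ ∑ g ∈ comps (m + 1) N, Φ g := by
          refine Finset.sum_le_sum_of_subset_of_nonneg ?_ fun g _ _ => hΦ0 g
          intro g hg
          obtain ⟨S, hS, rfl⟩ := Finset.mem_image.1 hg
          exact hG1 S hS
  refine h1.trans ?_
  have h2 : ∑ g ∈ comps (m + 1) N, Φ g = A ^ m * ∑ T ∈ (univ : Finset (Fin m)).powerset,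
      ∑ g ∈ comps (m + 1) N, ∏ j, (g j : ℝ) ^ (-(bb a T j)) := by
    rw [hΦ, ← Finset.mul_sum, Finset.sum_comm]
    congr 1
    refine Finset.sum_congr rfl fun g hg => ?_
    rw [Finset.prod_add]
    refine Finset.sum_congr rfl fun T _ => ?_
    exact prod_bb a T g (mem_comps.1 hg).1
  rw [h2]
  set P : ℝ := ((m : ℝ) + 1) with hP
  have hP0 : (0 : ℝ) < P := by positivity
  have h3 : ∀ T ∈ (univ : Finset (Fin m)).powerset,
      ∑ g ∈ comps (m + 1) N, ∏ j, (g j : ℝ) ^ (-(bb a T j)) ≤
        P * Real.exp P * cg (2 * a) ^ (m + 1) * ((N : ℝ) / P) ^ ((1 - a) * m) := by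
    intro T _
    have := dirichlet (β := 2 * a) (by linarith) (p := m + 1) (n := N) (by omega) hmN
      (bb a T) (bb_nonneg ha0 T) (bb_le ha0 T)
    rw [sum_bb] at this
    push_cast at this
    rw [← hP] at this
    have e1 : P - 1 - m * a = (1 - a) * m := by rw [hP]; ring
    rw [e1] at this
    exact this
  have h4 := Finset.sum_le_sum h3
  rw [Finset.sum_const, Finset.card_powerset, Finset.card_univ, Fintype.card_fin, nsmul_eq_mul]
    at h4
  refine (mul_le_mul_of_nonneg_left h4 (pow_nonneg hA m)).trans ?_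
  have hc := cg_ge (β := 2 * a) (by linarith)
  have hfac : ((N : ℝ) / P) ^ ((1 - a) * m) ≤
      (N : ℝ) ^ ((1 - a) * m) / (m.factorial : ℝ) ^ (1 - a) := by
    rw [Real.div_rpow (Nat.cast_nonneg _) hP0.le]
    refine div_le_div_of_nonneg_left (Real.rpow_nonneg (Nat.cast_nonneg _) _)
      (Real.rpow_pos_of_pos (by exact_mod_cast m.factorial_pos) _) ?_
    rw [mul_comm, Real.rpow_mul hP0.le, Real.rpow_natCast]
    refine Real.rpow_le_rpow (Nat.cast_nonneg _) ?_ (by linarith)
    have : m.factorial ≤ (m + 1) ^ m := (Nat.factorial_le_pow m).trans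
      (Nat.pow_le_pow_left (Nat.le_succ m) m)
    calc (m.factorial : ℝ) ≤ (((m + 1) ^ m : ℕ) : ℝ) := by exact_mod_cast this
      _ = P ^ m := by push_cast; rfl
  have hexp : Real.exp P = Real.exp 1 ^ (m + 1) := by
    rw [← Real.exp_nat_mul]; congr 1; rw [hP]; push_cast; ring
  have hPle : P ≤ 2 ^ m := by
    rw [hP]
    have : m + 1 ≤ 2 ^ m := Nat.lt_two_pow_self
    exact_mod_cast this
  have hnn : (0 : ℝ) ≤ (N : ℝ) ^ ((1 - a) * m) / (m.factorial : ℝ) ^ (1 - a) :=
    div_nonneg (Real.rpow_nonneg (Nat.cast_nonneg _) _) (Real.rpow_nonneg (Nat.cast_nonneg _) _)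
  have hE : (0 : ℝ) < Real.exp 1 := Real.exp_pos _
  have hec : 0 ≤ Real.exp 1 * cg (2 * a) := mul_nonneg hE.le (by linarith)
  calc A ^ m * (((2 ^ m : ℕ) : ℝ) * (P * Real.exp P * cg (2 * a) ^ (m + 1) *
        ((N : ℝ) / P) ^ ((1 - a) * m)))
      = (A ^ m * 2 ^ m * (Real.exp 1 * cg (2 * a)) ^ (m + 1)) *
          (P * ((N : ℝ) / P) ^ ((1 - a) * m)) := by
        rw [hexp, mul_pow]; push_cast; ring
    _ ≤ (A ^ m * 2 ^ m * (Real.exp 1 * cg (2 * a)) ^ (m + 1)) *
          (2 ^ m * ((N : ℝ) ^ ((1 - a) * m) / (m.factorial : ℝ) ^ (1 - a))) := by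
        refine mul_le_mul_of_nonneg_left ?_ (by positivity)
        exact mul_le_mul hPle hfac (Real.rpow_nonneg (by positivity) _) (by positivity)
    _ = (Real.exp 1 * cg (2 * a)) * (A * cS a) ^ m *
          ((N : ℝ) ^ ((1 - a) * m) / (m.factorial : ℝ) ^ (1 - a)) := by
        unfold cS
        have : (4 : ℝ) ^ m = 2 ^ m * 2 ^ m := by rw [← mul_pow]; norm_num
        rw [mul_pow A, mul_pow 4, this]; ring
    _ ≤ cS a * (A * cS a) ^ m *
          ((N : ℝ) ^ ((1 - a) * m) / (m.factorial : ℝ) ^ (1 - a)) := by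
        refine mul_le_mul_of_nonneg_right ?_ hnn
        refine mul_le_mul_of_nonneg_right ?_ (pow_nonneg (mul_nonneg hA (by linarith [cS_ge ha])) _)
        unfold cS; linarith

end Pool.Agent.H16.Q1
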