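import Mathlib

/-! Power series with coefficients of size `A C^m / (m!)^(2/3)`: if the first coefficients are
small then the sum is small on bounded sets. -/

namespace Pool.Agent.H16.Q1

open Filter Topology

/-- the size of the `m`-th coefficient -/
noncomputable def wt (C : ℝ) (m : ℕ) : ℝ := C ^ m / ((m.factorial : ℝ) ^ (2 / 3 : ℝ))

lemma fact_rpow_pos (m : ℕ) : 0 < ((m.factorial : ℝ) ^ (2 / 3 : ℝ)) :=
  Real.rpow_pos_of_pos (by exact_mod_cast m.factorial_pos) _

lemma wt_nonneg {C : ℝ} (hC : 0 ≤ C) (m : ℕ) : 0 ≤ wt C m :=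
  div_nonneg (pow_nonneg hC m) (fact_rpow_pos m).le

lemma wt_mul (C K : ℝ) (m : ℕ) : wt C m * K ^ m = wt (C * K) m := by
  unfold wt; rw [mul_pow]; ring

lemma wt_succ (C : ℝ) (m : ℕ) :
    wt C (m + 1) = wt C m * (C / ((m + 1 : ℝ) ^ (2 / 3 : ℝ))) := by
  unfold wt
  have h1 : (((m + 1).factorial : ℕ) : ℝ) ^ (2 / 3 : ℝ)
      = ((m + 1 : ℝ) ^ (2 / 3 : ℝ)) * ((m.factorial : ℝ) ^ (2 / 3 : ℝ)) := by
    rw [Nat.factorial_succ]
    push_cast
    rw [Real.mul_rpow (by positivity) (by positivity)]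
  rw [h1, pow_succ]
  have h2 := (fact_rpow_pos m).ne'
  have h3 : ((m + 1 : ℝ) ^ (2 / 3 : ℝ)) ≠ 0 := (Real.rpow_pos_of_pos (by positivity) _).ne'
  field_simp

lemma summable_wt {C : ℝ} (hC : 0 < C) : Summable (wt C) := by
  have hpos : ∀ m, 0 < wt C m := fun m => div_pos (pow_pos hC m) (fact_rpow_pos m)
  refine summable_of_ratio_test_tendsto_lt_one (l := 0) zero_lt_one
    (Eventually.of_forall fun m => (hpos m).ne') ?_
  have h1 : ∀ m : ℕ, ‖wt C (m + 1)‖ / ‖wt C m‖ = C / ((m + 1 : ℝ) ^ (2 / 3 : ℝ)) := by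
    intro m
    rw [wt_succ, norm_mul, mul_div_assoc, mul_comm, div_mul_cancel₀ _ (by
      rw [Real.norm_eq_abs, abs_of_pos (hpos m)]; exact (hpos m).ne')]
    rw [Real.norm_eq_abs, abs_of_nonneg]
    positivity
  simp_rw [h1]
  have h2 : Tendsto (fun m : ℕ => ((m + 1 : ℝ) ^ (2 / 3 : ℝ))) atTop atTop := by
    refine (tendsto_rpow_atTop (by norm_num : (0 : ℝ) < 2 / 3)).comp ?_
    exact tendsto_atTop_add_const_right _ _ tendsto_natCast_atTop_atTop
  exact h2.const_div_atTop C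

/-- **coefficient criterion**: for given size of the coefficients, it is enough that finitely
many of them are small. -/
theorem small_of_coeff {A C K ε : ℝ} (hC : 0 < C) (hK : 0 < K) (hA : 0 ≤ A) (hε : 0 < ε) :
    ∃ m0 : ℕ, ∃ δ : ℝ, 0 < δ ∧ ∀ p : Polynomial ℂ,
      (∀ m, ‖p.coeff m‖ ≤ A * wt C m) → (∀ m < m0, ‖p.coeff m‖ ≤ δ) →
      ∀ t : ℂ, ‖t‖ ≤ K → ‖p.eval t‖ ≤ ε := by
  have hs : Summable (fun m => A * wt (C * K) m) := (summable_wt (mul_pos hC hK)).mul_left A
  obtain ⟨m0, hm0⟩ : ∃ m0 : ℕ, ∀ s : Finset ℕ, (∀ i ∈ s, m0 ≤ i) →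
      ∑ i ∈ s, A * wt (C * K) i ≤ ε / 2 := by
    have h := hs.vanishing (Metric.ball_mem_nhds (0 : ℝ) (half_pos hε))
    obtain ⟨t, ht⟩ := h
    refine ⟨t.sup id + 1, fun s hs' => ?_⟩
    have hd : Disjoint s t := by
      rw [Finset.disjoint_left]
      intro i hi hit
      have := Finset.le_sup (f := id) hit
      simp only [id] at this
      have := hs' i hi
      omega
    have := ht s hd
    rw [Metric.mem_ball, dist_zero_right, Real.norm_eq_abs] at this
    exact (le_abs_self _).trans this.le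
  set B : ℝ := ∑ i ∈ Finset.range m0, K ^ i with hB
  have hB0 : 0 ≤ B := Finset.sum_nonneg fun i _ => pow_nonneg hK.le i
  refine ⟨m0, ε / (2 * (B + 1)), by positivity, fun p hp hsm t ht => ?_⟩
  have hsplit : p.eval t = (∑ i ∈ (Finset.range (p.natDegree + 1)).filter (· < m0),
      p.coeff i * t ^ i) + ∑ i ∈ (Finset.range (p.natDegree + 1)).filter (fun i => ¬ i < m0),
      p.coeff i * t ^ i := by
    rw [Finset.sum_filter_add_sum_filter_not, Polynomial.eval_eq_sum_range]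
  rw [hsplit]
  refine (norm_add_le _ _).trans ?_
  have h1 : ‖∑ i ∈ (Finset.range (p.natDegree + 1)).filter (· < m0), p.coeff i * t ^ i‖
      ≤ ε / 2 := by
    refine (norm_sum_le _ _).trans ?_
    calc ∑ i ∈ (Finset.range (p.natDegree + 1)).filter (· < m0), ‖p.coeff i * t ^ i‖
        ≤ ∑ i ∈ (Finset.range (p.natDegree + 1)).filter (· < m0),
            ε / (2 * (B + 1)) * K ^ i := by
          refine Finset.sum_le_sum fun i hi => ?_
          rw [norm_mul, norm_pow]
          have hi' := (Finset.mem_filter.1 hi).2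
          exact mul_le_mul (hsm i hi') (pow_le_pow_left₀ (norm_nonneg _) ht i)
            (by positivity) (by positivity)
      _ ≤ ∑ i ∈ Finset.range m0, ε / (2 * (B + 1)) * K ^ i := by
          refine Finset.sum_le_sum_of_subset_of_nonneg ?_ fun i _ _ => by positivity
          intro i hi
          exact Finset.mem_range.2 (Finset.mem_filter.1 hi).2
      _ = ε / (2 * (B + 1)) * B := by rw [← Finset.mul_sum]
      _ ≤ ε / 2 := by
          rw [div_mul_eq_mul_div, div_le_div_iff₀ (by positivity) (by norm_num)]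
          nlinarith
  have h2 : ‖∑ i ∈ (Finset.range (p.natDegree + 1)).filter (fun i => ¬ i < m0),
      p.coeff i * t ^ i‖ ≤ ε / 2 := by
    refine (norm_sum_le _ _).trans ?_
    calc ∑ i ∈ (Finset.range (p.natDegree + 1)).filter (fun i => ¬ i < m0), ‖p.coeff i * t ^ i‖
        ≤ ∑ i ∈ (Finset.range (p.natDegree + 1)).filter (fun i => ¬ i < m0),
            A * wt (C * K) i := by
          refine Finset.sum_le_sum fun i _ => ?_
          rw [norm_mul, norm_pow, ← wt_mul, ← mul_assoc]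
          exact mul_le_mul (hp i) (pow_le_pow_left₀ (norm_nonneg _) ht i)
            (by positivity) (mul_nonneg hA (wt_nonneg hC.le i))
      _ ≤ ε / 2 := hm0 _ fun i hi => not_lt.1 (Finset.mem_filter.1 hi).2
  linarith

/-- filter form -/
theorem tendsto_of_coeff {ι : Type*} {l : Filter ι} {A C : ℝ} (hC : 0 < C) (hA : 0 ≤ A)
    (p : ι → Polynomial ℂ) (hb : ∀ᶠ i in l, ∀ m, ‖(p i).coeff m‖ ≤ A * wt C m)
    (h0 : ∀ m, Tendsto (fun i => (p i).coeff m) l (𝓝 0)) {K : ℝ} (hK : 0 < K) {ε : ℝ}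
    (hε : 0 < ε) : ∀ᶠ i in l, ∀ t : ℂ, ‖t‖ ≤ K → ‖(p i).eval t‖ ≤ ε := by
  obtain ⟨m0, δ, hδ, h⟩ := small_of_coeff (A := A) (C := C) (K := K) (ε := ε) hC hK hA hε
  have h1 : ∀ᶠ i in l, ∀ m < m0, ‖(p i).coeff m‖ ≤ δ := by
    have : ∀ m ∈ Finset.range m0, ∀ᶠ i in l, ‖(p i).coeff m‖ ≤ δ := by
      intro m _
      have := (h0 m).norm
      rw [norm_zero] at this
      exact (this.eventually (gt_mem_nhds hδ)).mono fun i hi => hi.le
    have := (Filter.eventually_all_finset (Finset.range m0)).2 this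
    exact this.mono fun i hi m hm => hi m (Finset.mem_range.2 hm)
  filter_upwards [hb, h1] with i hi1 hi2 t ht
  exact h (p i) hi1 hi2 t ht

end Pool.Agent.H16.Q1
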