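import Pool.Agent.H16.Q1.Series

/-! Polynomials that are bounded on the disc of radius `2K` and have small first coefficients
are small on the disc of radius `K`. -/

namespace Pool.Agent.H16.Q1

open Filter Topology

/-- Cauchy estimate for the coefficients of a polynomial -/
lemma coeff_le_of_bound {B ρ : ℝ} (hρ : 0 < ρ) (p : Polynomial ℂ)
    (hp : ∀ t : ℂ, ‖t‖ ≤ ρ → ‖p.eval t‖ ≤ B) (m : ℕ) : ‖p.coeff m‖ * ρ ^ m ≤ B := by
  have h1 : ‖iteratedDeriv m (fun t => p.eval t) 0‖ ≤ m.factorial * B / ρ ^ m := by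
    refine Complex.norm_iteratedDeriv_le_of_forall_mem_sphere_norm_le m hρ
      (Differentiable.diffContOnCl p.differentiable) ?_
    intro z hz
    refine hp z ?_
    rw [mem_sphere_zero_iff_norm] at hz
    exact hz.le
  have h2 : iteratedDeriv m (fun t => p.eval t) 0 = (m.factorial : ℂ) * p.coeff m := by
    have h3 : iteratedDeriv m (fun t => p.eval t)
        = fun t => ((Polynomial.derivative^[m]) p).eval t := by
      rw [iteratedDeriv_eq_iterate]
      clear h1
      induction m with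
      | zero => rfl
      | succ k ih =>
        rw [Function.iterate_succ_apply', ih, Function.iterate_succ_apply']
        funext t
        exact Polynomial.deriv _
    rw [h3]
    simp only
    rw [← Polynomial.coeff_zero_eq_eval_zero, Polynomial.coeff_iterate_derivative]
    simp [Nat.descFactorial_self]
  rw [h2, norm_mul] at h1
  have h4 : ‖(m.factorial : ℂ)‖ = (m.factorial : ℝ) := by simp
  rw [h4, mul_div_assoc] at h1
  have h5 : (0 : ℝ) < m.factorial := by exact_mod_cast m.factorial_pos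
  have h6 := le_of_mul_le_mul_left h1 h5
  rwa [le_div_iff₀ (pow_pos hρ m)] at h6

/-- **normal family criterion** -/
theorem small_of_bounded {B K ε : ℝ} (hK : 0 < K) (hB : 0 ≤ B) (hε : 0 < ε) :
    ∃ m0 : ℕ, ∃ δ : ℝ, 0 < δ ∧ ∀ p : Polynomial ℂ,
      (∀ t : ℂ, ‖t‖ ≤ 2 * K → ‖p.eval t‖ ≤ B) → (∀ m < m0, ‖p.coeff m‖ ≤ δ) →
      ∀ t : ℂ, ‖t‖ ≤ K → ‖p.eval t‖ ≤ ε := by
  obtain ⟨m0, hm0⟩ : ∃ m0 : ℕ, B * (1 / 2) ^ m0 * 2 ≤ ε / 2 := by
    have h : Tendsto (fun m : ℕ => B * (1 / 2 : ℝ) ^ m * 2) atTop (𝓝 (B * 0 * 2)) :=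
      ((tendsto_pow_atTop_nhds_zero_of_lt_one (by norm_num) (by norm_num)).const_mul B).mul_const 2
    rw [mul_zero, zero_mul] at h
    obtain ⟨m0, h⟩ := (h.eventually (gt_mem_nhds (half_pos hε))).exists
    exact ⟨m0, h.le⟩
  set A : ℝ := ∑ i ∈ Finset.range m0, K ^ i with hA
  have hA0 : 0 ≤ A := Finset.sum_nonneg fun i _ => pow_nonneg hK.le i
  refine ⟨m0, ε / (2 * (A + 1)), by positivity, fun p hp hsm t ht => ?_⟩
  have hc : ∀ m, ‖p.coeff m * t ^ m‖ ≤ B * (1 / 2) ^ m := by
    intro m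
    have h := coeff_le_of_bound (by positivity : (0 : ℝ) < 2 * K) p hp m
    rw [norm_mul, norm_pow]
    have h1 : ‖p.coeff m‖ * ‖t‖ ^ m ≤ ‖p.coeff m‖ * K ^ m :=
      mul_le_mul_of_nonneg_left (pow_le_pow_left₀ (norm_nonneg _) ht m) (norm_nonneg _)
    refine h1.trans ?_
    rw [mul_pow, ← mul_assoc, mul_comm _ ((2 : ℝ) ^ m), mul_assoc] at h
    have h2 : (0 : ℝ) < 2 ^ m := by positivity
    rw [one_div, inv_pow, ← div_eq_mul_inv, le_div_iff₀ h2]
    linarith
  have hsplit : p.eval t = (∑ i ∈ (Finset.range (p.natDegree + 1)).filter (· < m0),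
      p.coeff i * t ^ i) + ∑ i ∈ (Finset.range (p.natDegree + 1)).filter (fun i => ¬ i < m0),
      p.coeff i * t ^ i := by
    rw [Finset.sum_filter_add_sum_filter_not, Polynomial.eval_eq_sum_range]
  rw [hsplit]
  refine (norm_add_le _ _).trans ?_
  have h1 : ‖∑ i ∈ (Finset.range (p.natDegree + 1)).filter (· < m0), p.coeff i * t ^ i‖
      ≤ ε / 2 := by
    refine (norm_sum_le _ _).trans ?_
    calc ∑ i ∈ (Finset.range (p.natDegree + 1)).filter (· < m0), ‖p.coeff i * t ^ i‖
        ≤ ∑ i ∈ (Finset.range (p.natDegree + 1)).filter (· < m0),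
            ε / (2 * (A + 1)) * K ^ i := by
          refine Finset.sum_le_sum fun i hi => ?_
          rw [norm_mul, norm_pow]
          have hi' := (Finset.mem_filter.1 hi).2
          exact mul_le_mul (hsm i hi') (pow_le_pow_left₀ (norm_nonneg _) ht i)
            (by positivity) (by positivity)
      _ ≤ ∑ i ∈ Finset.range m0, ε / (2 * (A + 1)) * K ^ i := by
          refine Finset.sum_le_sum_of_subset_of_nonneg ?_ fun i _ _ => by positivity
          intro i hi
          exact Finset.mem_range.2 (Finset.mem_filter.1 hi).2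
      _ = ε / (2 * (A + 1)) * A := by rw [← Finset.mul_sum]
      _ ≤ ε / 2 := by
          rw [div_mul_eq_mul_div, div_le_div_iff₀ (by positivity) (by norm_num)]
          nlinarith
  have h2 : ‖∑ i ∈ (Finset.range (p.natDegree + 1)).filter (fun i => ¬ i < m0),
      p.coeff i * t ^ i‖ ≤ ε / 2 := by
    refine (norm_sum_le _ _).trans ?_
    calc ∑ i ∈ (Finset.range (p.natDegree + 1)).filter (fun i => ¬ i < m0), ‖p.coeff i * t ^ i‖
        ≤ ∑ i ∈ (Finset.range (p.natDegree + 1)).filter (fun i => ¬ i < m0),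
            B * (1 / 2) ^ i := Finset.sum_le_sum fun i _ => hc i
      _ ≤ ∑ i ∈ Finset.Ico m0 (m0 + (p.natDegree + 1)), B * (1 / 2) ^ i := by
          refine Finset.sum_le_sum_of_subset_of_nonneg ?_ fun i _ _ => by positivity
          intro i hi
          have h3 := Finset.mem_filter.1 hi
          have h4 := Finset.mem_range.1 h3.1
          rw [Finset.mem_Ico]
          omega
      _ = B * (1 / 2) ^ m0 * ∑ j ∈ Finset.range (p.natDegree + 1), (1 / 2 : ℝ) ^ j := by
          rw [Finset.sum_Ico_eq_sum_range, Finset.mul_sum]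
          refine Finset.sum_congr (by congr 1; omega) fun j _ => ?_
          rw [pow_add]; ring
      _ ≤ B * (1 / 2) ^ m0 * 2 := by
          refine mul_le_mul_of_nonneg_left ?_ (by positivity)
          have h5 : ∀ n : ℕ, ∑ j ∈ Finset.range n, (1 / 2 : ℝ) ^ j = 2 - 2 * (1 / 2) ^ n := by
            intro n
            rw [geom_sum_eq (by norm_num)]
            ring
          rw [h5]
          have : (0 : ℝ) ≤ 2 * (1 / 2) ^ (p.natDegree + 1) := by positivity
          linarith
      _ ≤ ε / 2 := hm0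
  linarith

/-- filter form of the normal family criterion -/
theorem tendsto_of_bounded {ι : Type*} {l : Filter ι} {B K ε : ℝ} (hK : 0 < K) (hB : 0 ≤ B)
    (hε : 0 < ε) (p : ι → Polynomial ℂ)
    (hb : ∀ᶠ i in l, ∀ t : ℂ, ‖t‖ ≤ 2 * K → ‖(p i).eval t‖ ≤ B)
    (h0 : ∀ m, Tendsto (fun i => (p i).coeff m) l (𝓝 0)) :
    ∀ᶠ i in l, ∀ t : ℂ, ‖t‖ ≤ K → ‖(p i).eval t‖ ≤ ε := by
  obtain ⟨m0, δ, hδ, h⟩ := small_of_bounded (B := B) (K := K) (ε := ε) hK hB hε
  have h1 : ∀ᶠ i in l, ∀ m < m0, ‖(p i).coeff m‖ ≤ δ := by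
    have : ∀ m ∈ Finset.range m0, ∀ᶠ i in l, ‖(p i).coeff m‖ ≤ δ := by
      intro m _
      have := (h0 m).norm
      rw [norm_zero] at this
      exact (this.eventually (gt_mem_nhds hδ)).mono fun i hi => hi.le
    have := (Filter.eventually_all_finset (Finset.range m0)).2 this
    exact this.mono fun i hi m hm => hi m (Finset.mem_range.2 hm)
  filter_upwards [hb, h1] with i hi1 hi2 t ht
  exact h (p i) hi1 hi2 t ht

end Pool.Agent.H16.Q1
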